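import Pool.Agent.Helper89.Stz.Defs

/-!
# Finite model: Parseval and duality
-/

set_option autoImplicit false

namespace Stz

open Finset

open scoped ComplexConjugate

section char

variable (A : ℕ) [NeZero A]

theorem ps_add (x y : ZMod A) : ps A (x + y) = ps A x * ps A y :=
  AddChar.map_add_eq_mul _ _ _

theorem ps_neg (x : ZMod A) : ps A (-x) = conj (ps A x) :=
  AddChar.map_neg_eq_conj _ _

theorem ps_zero : ps A 0 = 1 := AddChar.map_zero_eq_one _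

theorem norm_ps (x : ZMod A) : ‖ps A x‖ = 1 := AddChar.norm_apply _ _

theorem ps_mul_conj (x y : ZMod A) : ps A x * conj (ps A y) = ps A (x - y) := by
  rw [← ps_neg, ← ps_add, sub_eq_add_neg]

theorem sum_ps (x : ZMod A) : ∑ k : ZMod A, ps A (k * x) = if x = 0 then (A : ℂ) else 0 := by
  have h := AddChar.sum_mulShift (R := ZMod A) (R' := ℂ) (ψ := ZMod.stdAddChar) x
    (ZMod.isPrimitive_stdAddChar A)
  rw [ZMod.card] at h
  unfold ps
  rw [h]
  split_ifs <;> simp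

theorem sq_norm_eq (z : ℂ) : ((‖z‖ ^ 2 : ℝ) : ℂ) = z * conj z := by
  rw [Complex.mul_conj, Complex.normSq_eq_norm_sq]

/-- Orthogonality of characters -/
theorem orth {ι : Type*} (S : Finset ι) (φ : ι → ZMod A) (hφ : Set.InjOn φ S) (c : ι → ℂ) :
    (A : ℝ)⁻¹ * ∑ y : ZMod A, ‖∑ i ∈ S, c i * ps A (φ i * y)‖ ^ 2 = ∑ i ∈ S, ‖c i‖ ^ 2 := by
  classical
  have hA : (A : ℂ) ≠ 0 := Nat.cast_ne_zero.mpr (NeZero.ne A)
  have key : ((∑ y : ZMod A, ‖∑ i ∈ S, c i * ps A (φ i * y)‖ ^ 2 : ℝ) : ℂ) =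
      (A : ℂ) * ((∑ i ∈ S, ‖c i‖ ^ 2 : ℝ) : ℂ) := by
    rw [Complex.ofReal_sum, Complex.ofReal_sum]
    simp only [sq_norm_eq]
    calc ∑ y : ZMod A, (∑ i ∈ S, c i * ps A (φ i * y)) * conj (∑ i ∈ S, c i * ps A (φ i * y))
        = ∑ y : ZMod A, ∑ i ∈ S, ∑ j ∈ S, (c i * conj (c j)) * ps A (y * (φ i - φ j)) := by
          refine sum_congr rfl fun y _ => ?_
          rw [map_sum, sum_mul_sum]
          refine sum_congr rfl fun i _ => sum_congr rfl fun j _ => ?_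
          rw [map_mul]
          calc c i * ps A (φ i * y) * (conj (c j) * conj (ps A (φ j * y)))
              = c i * conj (c j) * (ps A (φ i * y) * conj (ps A (φ j * y))) := by ring
            _ = _ := by
              rw [ps_mul_conj]
              congr 2
              ring
      _ = ∑ i ∈ S, ∑ j ∈ S, (c i * conj (c j)) * ∑ y : ZMod A, ps A (y * (φ i - φ j)) := by
          rw [sum_comm]
          refine sum_congr rfl fun i _ => ?_
          rw [sum_comm]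
          refine sum_congr rfl fun j _ => ?_
          rw [mul_sum]
      _ = ∑ i ∈ S, c i * conj (c i) * A := by
          refine sum_congr rfl fun i hi => ?_
          rw [sum_eq_single i]
          · rw [sum_ps, sub_self, if_pos rfl]
          · intro j hj hji
            rw [sum_ps, if_neg, mul_zero]
            intro h
            exact hji (hφ hj hi (sub_eq_zero.mp h).symm)
          · intro h
            exact absurd hi h
      _ = (A : ℂ) * ∑ i ∈ S, c i * conj (c i) := by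
          rw [mul_sum]
          refine sum_congr rfl fun i _ => ?_
          ring
  have h2 : ∑ y : ZMod A, ‖∑ i ∈ S, c i * ps A (φ i * y)‖ ^ 2 = (A : ℝ) * ∑ i ∈ S, ‖c i‖ ^ 2 := by
    exact_mod_cast key
  rw [h2, ← mul_assoc, inv_mul_cancel₀, one_mul]
  exact Nat.cast_ne_zero.mpr (NeZero.ne A)

/-- Parseval -/
theorem parseval (f : ZMod A → ℂ) :
    ∑ k, ‖ft A f k‖ ^ 2 = (A : ℝ)⁻¹ * ∑ z, ‖f z‖ ^ 2 := by
  have h := orth A (univ : Finset (ZMod A)) id (fun _ _ _ _ h => h) f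
  rw [← h, ← mul_assoc, mul_sum]
  refine sum_congr rfl fun k _ => ?_
  unfold ft
  rw [norm_mul, mul_pow, norm_inv, Complex.norm_natCast, sq (A : ℝ)⁻¹]
  congr 3
  refine sum_congr rfl fun z _ => ?_
  rw [id, mul_comm k z]

end char

/-- Parseval in `y` -/
theorem l2y (A N : ℕ) [NeZero A] (hN : N ≤ A) (I : Finset ℕ) (a : ℕ → ℕ → ℂ) (z : ZMod A) :
    (A : ℝ)⁻¹ * ∑ y : ZMod A, ‖F A I N a z y‖ ^ 2 =
      ∑ m ∈ range N, ‖∑ n ∈ I, a n m * ps A (((n ^ 2 : ℕ) : ZMod A) * z)‖ ^ 2 := by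
  have hinj : Set.InjOn (fun m : ℕ => (m : ZMod A)) (range N : Finset ℕ) := by
    intro m hm m' hm' h
    rw [coe_range, Set.mem_Iio] at hm hm'
    have h1 := (ZMod.natCast_eq_natCast_iff' m m' A).mp h
    rwa [Nat.mod_eq_of_lt (by omega), Nat.mod_eq_of_lt (by omega)] at h1
  have h := orth A (range N) (fun m : ℕ => (m : ZMod A)) hinj
    (fun m => (∑ n ∈ I, a n m * ps A (((n ^ 2 : ℕ) : ZMod A) * z)) *
      ps A (((m ^ 2 : ℕ) : ZMod A) * z))
  simp only [norm_mul, norm_ps, mul_one] at h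
  rw [← h]
  congr 1
  refine sum_congr rfl fun y _ => ?_
  congr 2
  unfold F
  rw [sum_comm]
  refine sum_congr rfl fun m _ => ?_
  rw [sum_mul, sum_mul]
  refine sum_congr rfl fun n _ => ?_
  rw [ps_add, Nat.cast_add, add_mul, ps_add]
  ring

theorem inj_sq (A : ℕ) [NeZero A] (I : Finset ℕ) (hI : ∀ n ∈ I, n ^ 2 < A) :
    Set.InjOn (fun n : ℕ => ((n ^ 2 : ℕ) : ZMod A)) (I : Finset ℕ) := by
  intro m hm m' hm' h
  have h1 := (ZMod.natCast_eq_natCast_iff' (m ^ 2) (m' ^ 2) A).mp h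
  rw [Nat.mod_eq_of_lt (hI m hm), Nat.mod_eq_of_lt (hI m' hm')] at h1
  exact Nat.pow_left_injective (by norm_num) h1

/-- `L²` identity -/
theorem l2zy (A N : ℕ) [NeZero A] (hN : N ≤ A) (I : Finset ℕ) (hI : ∀ n ∈ I, n ^ 2 < A)
    (a : ℕ → ℕ → ℂ) :
    (A : ℝ)⁻¹ ^ 2 * ∑ z : ZMod A, ∑ y : ZMod A, ‖F A I N a z y‖ ^ 2 = nsq I N a := by
  have h1 : (A : ℝ)⁻¹ ^ 2 * ∑ z : ZMod A, ∑ y : ZMod A, ‖F A I N a z y‖ ^ 2 =
      ∑ m ∈ range N, (A : ℝ)⁻¹ * ∑ z : ZMod A,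
        ‖∑ n ∈ I, a n m * ps A (((n ^ 2 : ℕ) : ZMod A) * z)‖ ^ 2 := by
    calc (A : ℝ)⁻¹ ^ 2 * ∑ z : ZMod A, ∑ y : ZMod A, ‖F A I N a z y‖ ^ 2
        = (A : ℝ)⁻¹ * ∑ z : ZMod A, ((A : ℝ)⁻¹ * ∑ y : ZMod A, ‖F A I N a z y‖ ^ 2) := by
          rw [sq, mul_assoc, mul_sum]
      _ = (A : ℝ)⁻¹ * ∑ z : ZMod A, ∑ m ∈ range N,
            ‖∑ n ∈ I, a n m * ps A (((n ^ 2 : ℕ) : ZMod A) * z)‖ ^ 2 := by
          congr 1
          exact sum_congr rfl fun z _ => l2y A N hN I a z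
      _ = _ := by
          rw [sum_comm, mul_sum]
  rw [h1]
  unfold nsq
  rw [sum_comm]
  refine sum_congr rfl fun m _ => ?_
  exact orth A I (fun n : ℕ => ((n ^ 2 : ℕ) : ZMod A)) (inj_sq A I hI) (fun n => a n m)

/-! ## Duality -/

theorem comm3 {α β γ M : Type*} [AddCommMonoid M] (I : Finset α) (J : Finset β) (K : Finset γ)
    (h : α → β → γ → M) :
    ∑ n ∈ I, ∑ m ∈ J, ∑ z ∈ K, h n m z = ∑ z ∈ K, ∑ n ∈ I, ∑ m ∈ J, h n m z := by
  calc ∑ n ∈ I, ∑ m ∈ J, ∑ z ∈ K, h n m z = ∑ n ∈ I, ∑ z ∈ K, ∑ m ∈ J, h n m z :=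
        sum_congr rfl fun n _ => sum_comm
    _ = _ := sum_comm

theorem cs2 (I J : Finset ℕ) (a g : ℕ → ℕ → ℂ) :
    ‖∑ n ∈ I, ∑ m ∈ J, a n m * g n m‖ ^ 2 ≤
      (∑ n ∈ I, ∑ m ∈ J, ‖a n m‖ ^ 2) * ∑ n ∈ I, ∑ m ∈ J, ‖g n m‖ ^ 2 := by
  rw [← sum_product', ← sum_product', ← sum_product']
  have h1 : ‖∑ x ∈ I ×ˢ J, a x.1 x.2 * g x.1 x.2‖ ≤ ∑ x ∈ I ×ˢ J, ‖a x.1 x.2‖ * ‖g x.1 x.2‖ := by
    refine (norm_sum_le _ _).trans (le_of_eq ?_)
    exact sum_congr rfl fun x _ => norm_mul _ _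
  have h2 := sum_mul_sq_le_sq_mul_sq (I ×ˢ J) (fun x => ‖a x.1 x.2‖) (fun x => ‖g x.1 x.2‖)
  exact (pow_le_pow_left₀ (norm_nonneg _) h1 2).trans h2

theorem phase (z : ℂ) : ‖conj z / (‖z‖ : ℂ)‖ ≤ 1 ∧ conj z / (‖z‖ : ℂ) * z = (‖z‖ : ℂ) := by
  by_cases h : z = 0
  · simp [h]
  · have h1 : (‖z‖ : ℂ) ≠ 0 := by
      rw [Complex.ofReal_ne_zero]
      exact norm_ne_zero_iff.mpr h
    constructor
    · rw [norm_div, RCLike.norm_conj, Complex.norm_real, norm_norm]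
      exact le_of_eq (div_self (norm_ne_zero_iff.mpr h))
    · rw [div_mul_eq_mul_div, div_eq_iff h1, mul_comm, ← sq_norm_eq]
      push_cast
      ring

/-- duality for level sets: phases -/
theorem En_ge (A N : ℕ) [NeZero A] (I : Finset ℕ) (a : ℕ → ℕ → ℂ) (ha : nsq I N a ≤ 1)
    (W : Finset (ZMod A × ZMod A)) (lam : ℝ) (hlam : 0 ≤ lam)
    (hW : ∀ w ∈ W, lam ≤ ‖F A I N a w.1 w.2‖) :
    ∃ f : ZMod A → ZMod A → ℂ, (∀ z y, ‖f z y‖ ≤ if (z, y) ∈ W then 1 else 0) ∧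
      (lam * ((W.card : ℝ) / A ^ 2)) ^ 2 ≤ En A I N f := by
  have hA : (0 : ℝ) < A := Nat.cast_pos.mpr (Nat.pos_of_ne_zero (NeZero.ne A))
  set f : ZMod A → ZMod A → ℂ := fun z y =>
    if (z, y) ∈ W then conj (F A I N a z y) / (‖F A I N a z y‖ : ℂ) else 0 with hf
  refine ⟨f, ?_, ?_⟩
  · intro z y
    rw [hf]
    by_cases h : (z, y) ∈ W
    · simp only [h, if_true]
      exact (phase _).1
    · simp [h]
  · have h1 : ∑ n ∈ I, ∑ m ∈ range N, a n m * ft A (fm A f m) ((n ^ 2 + m ^ 2 : ℕ) : ZMod A) =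
        (A : ℂ)⁻¹ ^ 2 * ∑ z : ZMod A, ∑ y : ZMod A, f z y * F A I N a z y := by
      unfold ft fm F
      simp only [mul_sum, sum_mul]
      rw [comm3]
      refine sum_congr rfl fun z _ => ?_
      rw [comm3]
      refine sum_congr rfl fun y _ => sum_congr rfl fun n _ => sum_congr rfl fun m _ => ?_
      rw [ps_add, Int.cast_natCast]
      ring
    have h2 : ∑ z : ZMod A, ∑ y : ZMod A, f z y * F A I N a z y =
        ((∑ w ∈ W, ‖F A I N a w.1 w.2‖ : ℝ) : ℂ) := by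
      rw [← sum_product', univ_product_univ, Complex.ofReal_sum]
      have h3 : ∀ w : ZMod A × ZMod A, f w.1 w.2 * F A I N a w.1 w.2 =
          if w ∈ W then (‖F A I N a w.1 w.2‖ : ℂ) else 0 := by
        intro w
        rw [hf]
        by_cases h : w ∈ W
        · simp only [h, Prod.mk.eta, if_true]
          exact (phase _).2
        · simp [h]
      simp only [h3]
      rw [sum_ite_mem, univ_inter]
    have h4 : lam * W.card ≤ ∑ w ∈ W, ‖F A I N a w.1 w.2‖ := by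
      have := card_nsmul_le_sum W (fun w => ‖F A I N a w.1 w.2‖) lam hW
      rw [nsmul_eq_mul] at this
      linarith
    have h5 := cs2 I (range N) a fun n m => ft A (fm A f m) ((n ^ 2 + m ^ 2 : ℕ) : ZMod A)
    rw [h1, h2, norm_mul, norm_pow, norm_inv, Complex.norm_natCast, Complex.norm_real,
      Real.norm_of_nonneg (sum_nonneg fun w _ => norm_nonneg _)] at h5
    have hEn : 0 ≤ En A I N f := sum_nonneg fun n _ => sum_nonneg fun m _ => sq_nonneg _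
    have h6 : nsq I N a * En A I N f ≤ En A I N f := by
      calc nsq I N a * En A I N f ≤ 1 * En A I N f := mul_le_mul_of_nonneg_right ha hEn
        _ = _ := one_mul _
    refine le_trans ?_ (h5.trans h6)
    apply pow_le_pow_left₀ (by positivity)
    calc lam * ((W.card : ℝ) / A ^ 2) = (A : ℝ)⁻¹ ^ 2 * (lam * W.card) := by
          rw [inv_pow]; field_simp
      _ ≤ _ := mul_le_mul_of_nonneg_left h4 (by positivity)

theorem Eg_ge (A N : ℕ) [NeZero A] (I : Finset ℕ) (a : ℕ → ℕ → ℂ) (ha : nsq I N a ≤ 1)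
    (x : ZMod A → ZMod A) (T : Finset (ZMod A)) (lam : ℝ) (hlam : 0 ≤ lam)
    (hT : ∀ z ∈ T, lam ≤ ‖F A I N a z (x z)‖) :
    ∃ g : ZMod A → ℂ, (∀ z, ‖g z‖ ≤ if z ∈ T then 1 else 0) ∧
      (lam * mu A T) ^ 2 ≤ Eg A I N x g := by
  have hA : (0 : ℝ) < A := Nat.cast_pos.mpr (Nat.pos_of_ne_zero (NeZero.ne A))
  set g : ZMod A → ℂ := fun z =>
    if z ∈ T then conj (F A I N a z (x z)) / (‖F A I N a z (x z)‖ : ℂ) else 0 with hg
  refine ⟨g, ?_, ?_⟩
  · intro z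
    rw [hg]
    by_cases h : z ∈ T
    · simp only [h, if_true]
      exact (phase _).1
    · simp [h]
  · have h1 : ∑ n ∈ I, ∑ m ∈ range N, a n m * ((A : ℂ)⁻¹ * ∑ z, g z *
        ps A (((n ^ 2 + m ^ 2 : ℕ) : ZMod A) * z + (m : ZMod A) * x z)) =
        (A : ℂ)⁻¹ * ∑ z : ZMod A, g z * F A I N a z (x z) := by
      unfold F
      simp only [mul_sum]
      rw [comm3]
      refine sum_congr rfl fun z _ => sum_congr rfl fun n _ => sum_congr rfl fun m _ => ?_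
      ring
    have h2 : ∑ z : ZMod A, g z * F A I N a z (x z) =
        ((∑ z ∈ T, ‖F A I N a z (x z)‖ : ℝ) : ℂ) := by
      rw [Complex.ofReal_sum]
      have h3 : ∀ z : ZMod A, g z * F A I N a z (x z) =
          if z ∈ T then (‖F A I N a z (x z)‖ : ℂ) else 0 := by
        intro z
        rw [hg]
        by_cases h : z ∈ T
        · simp only [h, if_true]
          exact (phase _).2
        · simp [h]
      simp only [h3]
      rw [sum_ite_mem, univ_inter]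
    have h4 : lam * T.card ≤ ∑ z ∈ T, ‖F A I N a z (x z)‖ := by
      have := card_nsmul_le_sum T (fun z => ‖F A I N a z (x z)‖) lam hT
      rw [nsmul_eq_mul] at this
      linarith
    have h5 := cs2 I (range N) a fun n m => (A : ℂ)⁻¹ * ∑ z, g z *
        ps A (((n ^ 2 + m ^ 2 : ℕ) : ZMod A) * z + (m : ZMod A) * x z)
    rw [h1, h2, norm_mul, norm_inv, Complex.norm_natCast, Complex.norm_real,
      Real.norm_of_nonneg (sum_nonneg fun w _ => norm_nonneg _)] at h5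
    have hEg : 0 ≤ Eg A I N x g := sum_nonneg fun n _ => sum_nonneg fun m _ => sq_nonneg _
    have h6 : nsq I N a * Eg A I N x g ≤ Eg A I N x g := by
      calc nsq I N a * Eg A I N x g ≤ 1 * Eg A I N x g := mul_le_mul_of_nonneg_right ha hEg
        _ = _ := one_mul _
    refine le_trans ?_ (h5.trans h6)
    unfold mu
    apply pow_le_pow_left₀ (by positivity)
    calc lam * ((T.card : ℝ) / A) = (A : ℝ)⁻¹ * (lam * T.card) := by
          field_simp
      _ ≤ _ := mul_le_mul_of_nonneg_left h4 (by positivity)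

theorem Eg_le (A N : ℕ) [NeZero A] (I : Finset ℕ) (hI : ∀ n ∈ I, n ^ 2 < A)
    (x : ZMod A → ZMod A) (h : ZMod A → ℂ) :
    Eg A I N x h ≤ N * ((A : ℝ)⁻¹ * ∑ z, ‖h z‖ ^ 2) := by
  classical
  unfold Eg
  rw [sum_comm]
  have h1 : ∀ m ∈ range N, ∑ n ∈ I, ‖(A : ℂ)⁻¹ * ∑ z, h z *
      ps A (((n ^ 2 + m ^ 2 : ℕ) : ZMod A) * z + (m : ZMod A) * x z)‖ ^ 2 ≤
      (A : ℝ)⁻¹ * ∑ z, ‖h z‖ ^ 2 := by
    intro m _
    set hm : ZMod A → ℂ := fun z => h z * ps A (((m ^ 2 : ℕ) : ZMod A) * z + (m : ZMod A) * x z)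
      with hhm
    have h2 : ∀ z, ‖hm z‖ = ‖h z‖ := fun z => by rw [hhm]; simp only [norm_mul, norm_ps, mul_one]
    have h3 := parseval A hm
    simp only [h2] at h3
    rw [← h3]
    calc ∑ n ∈ I, ‖(A : ℂ)⁻¹ * ∑ z, h z *
          ps A (((n ^ 2 + m ^ 2 : ℕ) : ZMod A) * z + (m : ZMod A) * x z)‖ ^ 2
        = ∑ n ∈ I, ‖ft A hm ((n ^ 2 : ℕ) : ZMod A)‖ ^ 2 := by
          refine sum_congr rfl fun n _ => ?_
          unfold ft
          congr 3
          refine sum_congr rfl fun z _ => ?_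
          rw [hhm]
          simp only
          rw [mul_assoc, ← ps_add, Nat.cast_add]
          congr 2
          ring
      _ = ∑ k ∈ I.image fun n => ((n ^ 2 : ℕ) : ZMod A), ‖ft A hm k‖ ^ 2 :=
          (sum_image (f := fun k => ‖ft A hm k‖ ^ 2) (inj_sq A I hI)).symm
      _ ≤ _ := sum_le_sum_of_subset_of_nonneg (subset_univ _) fun _ _ _ => sq_nonneg _
  calc _ ≤ ∑ m ∈ range N, (A : ℝ)⁻¹ * ∑ z, ‖h z‖ ^ 2 := sum_le_sum h1
    _ = _ := by rw [sum_const, card_range, nsmul_eq_mul]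

end Stz
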