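import Pool.Agent.Helper65.Stz.Basic

/-!
# Levels around the critical level
-/

set_option autoImplicit false

namespace Stz

open Finset

theorem good_le {N A : ℕ} [NeZero A] (h : Good ((N + 1) ^ 60) A) : (N + 1) ^ 60 ≤ A :=
  Nat.le_of_dvd (Nat.pos_of_ne_zero (NeZero.ne A)) (h _ (Nat.one_le_pow _ _ (by omega)) le_rfl)

theorem size_ok {N b A : ℕ} [NeZero A] (hN : 1 ≤ N) (hb : (b : ℝ) ≤ (N : ℝ) ^ 2)
    (h : Good ((N + 1) ^ 60) A) : 16 * (b + N) ^ 2 < A := by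
  have hb' : b ≤ N ^ 2 := by exact_mod_cast hb
  have h1 := good_le h
  have h2 : 16 * (b + N) ^ 2 ≤ 16 * (N + 1) ^ 4 := by
    have h3 : b + N ≤ (N + 1) ^ 2 := by nlinarith
    calc 16 * (b + N) ^ 2 ≤ 16 * ((N + 1) ^ 2) ^ 2 :=
          Nat.mul_le_mul_left 16 (Nat.pow_le_pow_left h3 2)
      _ = 16 * (N + 1) ^ 4 := by ring
  have h4 : 16 * (N + 1) ^ 4 < (N + 1) ^ 60 := by
    have h5 : 2 ^ 56 ≤ (N + 1) ^ 56 := Nat.pow_le_pow_left (by omega) 56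
    calc 16 * (N + 1) ^ 4 < 2 ^ 56 * (N + 1) ^ 4 := by
          apply Nat.mul_lt_mul_of_pos_right (by norm_num)
          positivity
      _ ≤ (N + 1) ^ 56 * (N + 1) ^ 4 := Nat.mul_le_mul_right _ h5
      _ = (N + 1) ^ 60 := by ring
  omega

/-- Level sets and the square function. -/
theorem lev_le (A : ℕ) [NeZero A] (I : Finset ℕ) (N : ℕ) (a : ℕ → ℕ → ℂ) (lam : ℝ)
    (hlam : 0 < lam) (T0 : Finset (ZMod A)) (hT0 : ∀ w ∈ lev A I N a lam, w.1 ∈ T0) :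
    ((lev A I N a lam).card : ℝ) / A ^ 2 ≤ (lam ^ 2)⁻¹ * (Real.sqrt (mu A T0) *
      Real.sqrt ((A : ℝ)⁻¹ * ∑ z : ZMod A,
        ((A : ℝ)⁻¹ * ∑ y : ZMod A, ‖F A I N a z y‖ ^ 2) ^ 2)) := by
  classical
  have hA : (0 : ℝ) < A := Nat.cast_pos.mpr (Nat.pos_of_ne_zero (NeZero.ne A))
  set G : ZMod A → ℝ := fun z => (A : ℝ)⁻¹ * ∑ y : ZMod A, ‖F A I N a z y‖ ^ 2 with hG
  have hG0 : ∀ z, 0 ≤ G z := fun z => by
    rw [hG]
    exact mul_nonneg (by positivity) (sum_nonneg fun y _ => sq_nonneg _)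
  have h1 : ((lev A I N a lam).card : ℝ) * lam ^ 2 ≤ ∑ z ∈ T0, ∑ y : ZMod A, ‖F A I N a z y‖ ^ 2 := by
    calc ((lev A I N a lam).card : ℝ) * lam ^ 2
        ≤ ∑ w ∈ lev A I N a lam, ‖F A I N a w.1 w.2‖ ^ 2 := by
          have := card_nsmul_le_sum (lev A I N a lam) (fun w => ‖F A I N a w.1 w.2‖ ^ 2)
            (lam ^ 2) (by
              intro w hw
              have h2 : lam ≤ ‖F A I N a w.1 w.2‖ := by
                unfold lev at hw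
                exact (mem_filter.mp hw).2
              exact pow_le_pow_left₀ hlam.le h2 2)
          rw [nsmul_eq_mul] at this
          exact this
      _ ≤ ∑ w ∈ T0 ×ˢ (univ : Finset (ZMod A)), ‖F A I N a w.1 w.2‖ ^ 2 := by
          apply sum_le_sum_of_subset_of_nonneg
          · intro w hw
            exact mem_product.mpr ⟨hT0 w hw, mem_univ _⟩
          · intro _ _ _
            exact sq_nonneg _
      _ = _ := sum_product _ _ _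
  have h2 : ∑ z ∈ T0, ∑ y : ZMod A, ‖F A I N a z y‖ ^ 2 = A * ∑ z ∈ T0, G z := by
    rw [mul_sum]
    refine sum_congr rfl fun z _ => ?_
    rw [hG]
    simp only
    rw [← mul_assoc, mul_inv_cancel₀ hA.ne', one_mul]
  have h3 : (∑ z ∈ T0, G z) ^ 2 ≤ T0.card * ∑ z : ZMod A, G z ^ 2 := by
    have h4 := sum_mul_sq_le_sq_mul_sq T0 (fun _ => (1 : ℝ)) G
    simp only [one_mul, one_pow, sum_const, nsmul_eq_mul, mul_one] at h4
    refine h4.trans ?_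
    apply mul_le_mul_of_nonneg_left _ (Nat.cast_nonneg _)
    exact sum_le_sum_of_subset_of_nonneg (subset_univ _) fun _ _ _ => sq_nonneg _
  have h5 : (A : ℝ)⁻¹ * ∑ z ∈ T0, G z ≤ Real.sqrt (mu A T0) *
      Real.sqrt ((A : ℝ)⁻¹ * ∑ z : ZMod A, G z ^ 2) := by
    rw [← Real.sqrt_mul (by unfold mu; positivity)]
    apply Real.le_sqrt_of_sq_le
    unfold mu
    calc ((A : ℝ)⁻¹ * ∑ z ∈ T0, G z) ^ 2 = (A : ℝ)⁻¹ ^ 2 * (∑ z ∈ T0, G z) ^ 2 := by ring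
      _ ≤ (A : ℝ)⁻¹ ^ 2 * (T0.card * ∑ z : ZMod A, G z ^ 2) :=
          mul_le_mul_of_nonneg_left h3 (by positivity)
      _ = _ := by field_simp
  calc ((lev A I N a lam).card : ℝ) / A ^ 2
      = (lam ^ 2)⁻¹ * ((A : ℝ)⁻¹ ^ 2 * (((lev A I N a lam).card : ℝ) * lam ^ 2)) := by
        field_simp
    _ ≤ (lam ^ 2)⁻¹ * ((A : ℝ)⁻¹ ^ 2 * (A * ∑ z ∈ T0, G z)) := by
        apply mul_le_mul_of_nonneg_left _ (by positivity)
        apply mul_le_mul_of_nonneg_left _ (by positivity)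
        rw [← h2]
        exact h1
    _ = (lam ^ 2)⁻¹ * ((A : ℝ)⁻¹ * ∑ z ∈ T0, G z) := by
        field_simp
    _ ≤ _ := mul_le_mul_of_nonneg_left h5 (by positivity)

theorem crit (hCL : ∃ δ : ℝ, 0 < δ ∧ ∃ N₀ : ℕ, ∀ (N b A : ℕ) [NeZero A], N₀ ≤ N →
      (b : ℝ) ≤ (N : ℝ) ^ (5 / 4 : ℝ) → Good ((N + 1) ^ 60) A → ∀ a : ℕ → ℕ → ℂ,
      nsq (Icc (b + 1) (b + N)) N a ≤ 1 → ∀ (T0 : Finset (ZMod A)) (lam : ℝ),
      (N : ℝ) ^ (1 / 2 - δ) ≤ lam →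
      (∀ z ∈ T0, ∃ y, lam ≤ ‖F A (Icc (b + 1) (b + N)) N a z y‖) → mu A T0 ≤ (N : ℝ) ^ (-δ))
    (hL4 : ∀ ε : ℝ, 0 < ε → ∃ C : ℝ, 0 < C ∧ ∀ (N b A : ℕ) [NeZero A], 1 ≤ N →
      (b : ℝ) ≤ (N : ℝ) ^ 2 → 16 * (b + N) ^ 2 < A → ∀ a : ℕ → ℕ → ℂ,
      (A : ℝ)⁻¹ * ∑ z : ZMod A,
        ((A : ℝ)⁻¹ * ∑ y : ZMod A, ‖F A (Icc (b + 1) (b + N)) N a z y‖ ^ 2) ^ 2
        ≤ C * (N : ℝ) ^ ε * nsq (Icc (b + 1) (b + N)) N a ^ 2) :
    ∃ δ : ℝ, 0 < δ ∧ ∃ C : ℝ, 0 < C ∧ ∀ (N b A : ℕ) [NeZero A], 1 ≤ N →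
    (b : ℝ) ≤ (N : ℝ) ^ (5 / 4 : ℝ) → Good ((N + 1) ^ 60) A → ∀ a : ℕ → ℕ → ℂ,
    nsq (Icc (b + 1) (b + N)) N a ≤ 1 → ∀ lam : ℝ, (N : ℝ) ^ (1 / 2 - δ) ≤ lam →
    lam ≤ (N : ℝ) ^ (1 / 2 + δ) →
    ((lev A (Icc (b + 1) (b + N)) N a lam).card : ℝ) ≤ C * (N : ℝ) ^ (-1 - 10 * δ) * A ^ 2 := by
  obtain ⟨δ₀, hδ₀, N₀, hCL⟩ := hCL
  obtain ⟨C, hC, hL4⟩ := hL4 (δ₀ / 2) (by positivity)
  refine ⟨δ₀ / 48, by positivity, max (Real.sqrt C) ((max N₀ 1 : ℕ) ^ (1 + 10 * (δ₀ / 48))), ?_, ?_⟩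
  · exact lt_max_of_lt_left (Real.sqrt_pos.mpr hC)
  intro N b A _ hN hb hgood a ha lam hlam _
  classical
  have hA : (0 : ℝ) < A := Nat.cast_pos.mpr (Nat.pos_of_ne_zero (NeZero.ne A))
  have hN1 : (1 : ℝ) ≤ N := by exact_mod_cast hN
  have hN0 : (0 : ℝ) < N := by linarith
  have hlam0 : 0 < lam := lt_of_lt_of_le (Real.rpow_pos_of_pos hN0 _) hlam
  by_cases hNN : N₀ ≤ N
  · set T0 : Finset (ZMod A) := (lev A (Icc (b + 1) (b + N)) N a lam).image Prod.fst with hT0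
    have hmu : mu A T0 ≤ (N : ℝ) ^ (-δ₀) := by
      apply hCL N b A hNN hb hgood a ha T0 lam
      · refine le_trans ?_ hlam
        apply Real.rpow_le_rpow_of_exponent_le hN1
        linarith
      · intro z hz
        rw [hT0, mem_image] at hz
        obtain ⟨w, hw, rfl⟩ := hz
        unfold lev at hw
        exact ⟨w.2, (mem_filter.mp hw).2⟩
    have hb2 : (b : ℝ) ≤ (N : ℝ) ^ 2 := by
      refine hb.trans ?_
      rw [← Real.rpow_natCast]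
      apply Real.rpow_le_rpow_of_exponent_le hN1
      norm_num
    have h4 := hL4 N b A hN hb2 (size_ok hN hb2 hgood) a
    have hnsq0 : 0 ≤ nsq (Icc (b + 1) (b + N)) N a :=
      sum_nonneg fun _ _ => sum_nonneg fun _ _ => sq_nonneg _
    have h5 : (A : ℝ)⁻¹ * ∑ z : ZMod A,
        ((A : ℝ)⁻¹ * ∑ y : ZMod A, ‖F A (Icc (b + 1) (b + N)) N a z y‖ ^ 2) ^ 2 ≤
        C * (N : ℝ) ^ (δ₀ / 2) := by
      refine h4.trans ?_
      have h6 : nsq (Icc (b + 1) (b + N)) N a ^ 2 ≤ 1 := pow_le_one₀ hnsq0 ha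
      calc C * (N : ℝ) ^ (δ₀ / 2) * nsq (Icc (b + 1) (b + N)) N a ^ 2
          ≤ C * (N : ℝ) ^ (δ₀ / 2) * 1 := mul_le_mul_of_nonneg_left h6 (by positivity)
        _ = _ := mul_one _
    have h6 := lev_le A (Icc (b + 1) (b + N)) N a lam hlam0 T0 (by
      intro w hw
      rw [hT0]
      exact mem_image_of_mem _ hw)
    have h7 : (lam ^ 2)⁻¹ ≤ (N : ℝ) ^ (-1 + 2 * (δ₀ / 48)) := by
      rw [show (N : ℝ) ^ (-1 + 2 * (δ₀ / 48)) = (((N : ℝ) ^ (1 / 2 - δ₀ / 48)) ^ 2)⁻¹ by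
        rw [← Real.rpow_natCast, ← Real.rpow_mul hN0.le, ← Real.rpow_neg hN0.le]
        congr 1
        push_cast
        ring]
      apply inv_anti₀ (by positivity)
      exact pow_le_pow_left₀ (by positivity) hlam 2
    have h8 : Real.sqrt (mu A T0) ≤ (N : ℝ) ^ (-δ₀ / 2) := by
      refine (Real.sqrt_le_sqrt hmu).trans (le_of_eq ?_)
      rw [Real.sqrt_eq_rpow, ← Real.rpow_mul hN0.le]
      congr 1
      ring
    have h9 : Real.sqrt ((A : ℝ)⁻¹ * ∑ z : ZMod A,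
        ((A : ℝ)⁻¹ * ∑ y : ZMod A, ‖F A (Icc (b + 1) (b + N)) N a z y‖ ^ 2) ^ 2) ≤
        Real.sqrt C * (N : ℝ) ^ (δ₀ / 4) := by
      refine (Real.sqrt_le_sqrt h5).trans (le_of_eq ?_)
      rw [Real.sqrt_mul hC.le, Real.sqrt_eq_rpow ((N : ℝ) ^ (δ₀ / 2)), ← Real.rpow_mul hN0.le]
      congr 2
      ring
    have h10 : ((lev A (Icc (b + 1) (b + N)) N a lam).card : ℝ) / A ^ 2 ≤
        Real.sqrt C * (N : ℝ) ^ (-1 - 10 * (δ₀ / 48)) := by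
      refine h6.trans ?_
      calc (lam ^ 2)⁻¹ * (Real.sqrt (mu A T0) * _)
          ≤ (N : ℝ) ^ (-1 + 2 * (δ₀ / 48)) *
            ((N : ℝ) ^ (-δ₀ / 2) * (Real.sqrt C * (N : ℝ) ^ (δ₀ / 4))) := by
            apply mul_le_mul h7 _ (by positivity) (by positivity)
            exact mul_le_mul h8 h9 (Real.sqrt_nonneg _) (by positivity)
        _ = Real.sqrt C * ((N : ℝ) ^ (-1 + 2 * (δ₀ / 48)) * (N : ℝ) ^ (-δ₀ / 2) *
              (N : ℝ) ^ (δ₀ / 4)) := by ring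
        _ = Real.sqrt C * (N : ℝ) ^ (-1 - 10 * (δ₀ / 48)) := by
            rw [← Real.rpow_add hN0, ← Real.rpow_add hN0]
            congr 2
            ring
    rw [div_le_iff₀ (by positivity)] at h10
    refine h10.trans ?_
    apply mul_le_mul_of_nonneg_right _ (by positivity)
    apply mul_le_mul_of_nonneg_right (le_max_left _ _) (by positivity)
  · have h1 : ((lev A (Icc (b + 1) (b + N)) N a lam).card : ℝ) ≤ (A : ℝ) ^ 2 := by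
      have h2 := card_le_univ (lev A (Icc (b + 1) (b + N)) N a lam)
      rw [Fintype.card_prod, ZMod.card] at h2
      calc ((lev A (Icc (b + 1) (b + N)) N a lam).card : ℝ) ≤ ((A * A : ℕ) : ℝ) := by
            exact_mod_cast h2
        _ = _ := by push_cast; ring
    refine h1.trans ?_
    have h3 : 1 ≤ max (Real.sqrt C) ((max N₀ 1 : ℕ) ^ (1 + 10 * (δ₀ / 48))) *
        (N : ℝ) ^ (-1 - 10 * (δ₀ / 48)) := by
      have h4 : (N : ℝ) ^ (1 + 10 * (δ₀ / 48)) ≤ ((max N₀ 1 : ℕ) : ℝ) ^ (1 + 10 * (δ₀ / 48)) := by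
        apply Real.rpow_le_rpow hN0.le _ (by positivity)
        have : N ≤ max N₀ 1 := by omega
        exact_mod_cast this
      calc (1 : ℝ) = (N : ℝ) ^ (1 + 10 * (δ₀ / 48)) * (N : ℝ) ^ (-1 - 10 * (δ₀ / 48)) := by
            rw [← Real.rpow_add hN0]
            rw [show 1 + 10 * (δ₀ / 48) + (-1 - 10 * (δ₀ / 48)) = 0 by ring, Real.rpow_zero]
        _ ≤ _ := by
            apply mul_le_mul_of_nonneg_right _ (by positivity)
            exact h4.trans (le_max_right _ _)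
    calc (A : ℝ) ^ 2 = 1 * (A : ℝ) ^ 2 := (one_mul _).symm
      _ ≤ _ := mul_le_mul_of_nonneg_right h3 (by positivity)

end Stz
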