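import Mathlib

/-!
# Supply of primes in dyadic intervals
-/

set_option autoImplicit false

namespace Stz

open Finset

/-- supply of primes in dyadic intervals, up to logarithms -/
theorem prime_supply : ∃ c : ℝ, 0 < c ∧ ∃ Y₀ : ℝ, ∀ Y : ℝ, Y₀ ≤ Y → ∃ (Y' : ℕ) (Q : Finset ℕ),
    c * Y / (Real.log Y) ^ 2 ≤ Y' ∧ (2 * Y' : ℝ) ≤ Y ∧
    (∀ q ∈ Q, q.Prime ∧ Y' ≤ q ∧ q ≤ 2 * Y') ∧ c * Y / (Real.log Y) ^ 2 ≤ Q.card := by
  refine ⟨1 / 48, by norm_num, 100, fun Y hY => ?_⟩
  set m : ℕ := ⌊Y / 2⌋₊ with hm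
  have hmY : (m : ℝ) ≤ Y / 2 := Nat.floor_le (by linarith)
  have hmY' : Y / 2 < m + 1 := Nat.lt_floor_add_one _
  have hm24 : (24 : ℝ) ≤ m := by linarith
  have hm4 : Y / 4 ≤ m := by linarith
  have hlogm : 1 ≤ Real.log m := by
    rw [Real.le_log_iff_exp_le (by linarith)]
    have := Real.exp_one_lt_d9
    linarith
  have hlogmY : Real.log m ≤ Real.log Y := Real.log_le_log (by linarith) (by linarith)
  have hlogY : 1 ≤ Real.log Y := hlogm.trans hlogmY
  have hl2 := Real.log_two_gt_d9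
  have hl2' := Real.log_two_lt_d9
  -- lower bound for the number of primes
  have hpi : (m : ℝ) / 4 / Real.log m ≤ Nat.primeCounting m := by
    refine le_trans ?_ (Chebyshev.pi_ge m)
    apply div_le_div_of_nonneg_right _ (by linarith)
    have h1 : Real.log ((m : ℝ) + 1) ≤ ((m : ℝ) + 1) / 16 - 1 + 4 * Real.log 2 := by
      have h2 := Real.log_le_sub_one_of_pos (show 0 < ((m : ℝ) + 1) / 16 by positivity)
      rw [Real.log_div (by positivity) (by norm_num)] at h2
      have h3 : Real.log 16 = 4 * Real.log 2 := by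
        rw [show (16 : ℝ) = 2 ^ 4 by norm_num, Real.log_pow]
        norm_num
      linarith
    nlinarith
  set P : Finset ℕ := (range (m + 1)).filter Nat.Prime with hP
  have hPcard : P.card = Nat.primeCounting m := by
    rw [Nat.primeCounting, Nat.primeCounting', Nat.count_eq_card_filter_range]
  have hk : (Nat.log 2 m : ℝ) + 1 ≤ 3 * Real.log m := by
    have h1 : (2 : ℝ) ^ Nat.log 2 m ≤ m := by
      have h0 : m ≠ 0 := by
        intro h
        rw [h] at hm24
        norm_num at hm24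
      exact_mod_cast Nat.pow_log_le_self 2 h0
    have h2 := Real.log_le_log (by positivity) h1
    rw [Real.log_pow] at h2
    nlinarith [(Nat.cast_nonneg (Nat.log 2 m) : (0 : ℝ) ≤ (Nat.log 2 m : ℝ))]
  have hpos : 0 < (Nat.log 2 m : ℝ) + 1 := by positivity
  obtain ⟨k, _, hkQ⟩ := Finset.exists_le_card_fiber_of_nsmul_le_card_of_maps_to
    (s := P) (t := range (Nat.log 2 m + 1)) (f := Nat.log 2)
    (b := (P.card : ℝ) / ((Nat.log 2 m : ℝ) + 1)) (by
      intro q hq
      rw [hP, mem_filter, mem_range] at hq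
      rw [mem_range]
      have := Nat.log_mono_right (b := 2) (show q ≤ m by omega)
      omega) ⟨0, by rw [mem_range]; omega⟩ (by
      rw [card_range, nsmul_eq_mul]
      push_cast
      rw [mul_div_cancel₀ _ hpos.ne'])
  set Q : Finset ℕ := P.filter fun x => Nat.log 2 x = k with hQ
  have hb : 1 / 48 * Y / (Real.log Y) ^ 2 ≤ (Q.card : ℝ) := by
    refine le_trans ?_ hkQ
    rw [hPcard, le_div_iff₀ hpos]
    refine le_trans ?_ hpi
    rw [le_div_iff₀ (by linarith)]
    have hY2 : 0 < (Real.log Y) ^ 2 := by positivity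
    have h3 : ((Nat.log 2 m : ℝ) + 1) * Real.log m ≤ 3 * (Real.log Y) ^ 2 := by
      have h4 : ((Nat.log 2 m : ℝ) + 1) * Real.log m ≤ (3 * Real.log Y) * Real.log Y :=
        mul_le_mul (by linarith) hlogmY (by linarith) (by linarith)
      calc _ ≤ _ := h4
        _ = _ := by ring
    calc 1 / 48 * Y / (Real.log Y) ^ 2 * ((Nat.log 2 m : ℝ) + 1) * Real.log m
        = 1 / 48 * Y / (Real.log Y) ^ 2 * (((Nat.log 2 m : ℝ) + 1) * Real.log m) := by ring
      _ ≤ 1 / 48 * Y / (Real.log Y) ^ 2 * (3 * (Real.log Y) ^ 2) :=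
          mul_le_mul_of_nonneg_left h3 (by positivity)
      _ = Y / 16 := by field_simp; norm_num
      _ ≤ m / 4 := by linarith
  have hbpos : 0 < 1 / 48 * Y / (Real.log Y) ^ 2 := by positivity
  have hmem : ∀ q ∈ Q, q.Prime ∧ 2 ^ k ≤ q ∧ q < 2 ^ (k + 1) ∧ q ≤ m := by
    intro q hq
    rw [hQ, mem_filter, hP, mem_filter, mem_range] at hq
    obtain ⟨⟨h1, h2⟩, h3⟩ := hq
    refine ⟨h2, ?_, ?_, by omega⟩
    · rw [← h3]
      exact Nat.pow_log_le_self 2 h2.ne_zero
    · rw [← h3]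
      exact Nat.lt_pow_succ_log_self (by norm_num) q
  have hQne : Q.Nonempty := by
    rw [← card_pos]
    have : (0 : ℝ) < Q.card := lt_of_lt_of_le hbpos hb
    exact_mod_cast this
  have hQle : Q.card ≤ 2 ^ k := by
    have h1 : Q ⊆ Ico (2 ^ k) (2 ^ (k + 1)) := by
      intro q hq
      obtain ⟨_, a, b, _⟩ := hmem q hq
      exact mem_Ico.mpr ⟨a, b⟩
    have h2 := card_le_card h1
    rw [Nat.card_Ico, pow_succ] at h2
    omega
  refine ⟨2 ^ k, Q, ?_, ?_, ?_, hb⟩
  · refine hb.trans ?_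
    exact_mod_cast hQle
  · obtain ⟨q, hq⟩ := hQne
    obtain ⟨_, a, _, b⟩ := hmem q hq
    have h1 : ((2 ^ k : ℕ) : ℝ) ≤ m := by exact_mod_cast a.trans b
    linarith
  · intro q hq
    obtain ⟨h1, a, b, _⟩ := hmem q hq
    refine ⟨h1, a, ?_⟩
    rw [pow_succ] at b
    omega

end Stz
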