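import Pool.Agent.Helper65.Stz.Md2
import Pool.Agent.Helper65.Stz.Primes
import Pool.Agent.Helper35.Stz.Sieve
import Pool.Agent.Helper66.Stz.L4
import Pool.Agent.Helper80.Stz.Four

/-!
# Middle levels
-/

set_option autoImplicit false

namespace Stz

open Finset

namespace Md

theorem quad {X α β : ℝ} (hα : 0 ≤ α) (hβ : 0 ≤ β) (h : X ^ 2 ≤ α * X + β ^ 2) : X ≤ α + β := by
  by_contra hc
  push Not at hc
  have h1 : 0 < X := by linarith
  have h2 : (α + β) * X < X * X := mul_lt_mul_of_pos_right hc h1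
  have h3 : β * β ≤ β * X := mul_le_mul_of_nonneg_left (by linarith) hβ
  nlinarith

/-- logarithms against powers -/
theorem log_sq_le (ε : ℝ) (hε : 0 < ε) (x : ℝ) (hx : 1 ≤ x) :
    (Real.log x) ^ 2 ≤ 64 / ε ^ 2 * x ^ (ε / 4) := by
  have h1 := Real.log_le_rpow_div (show 0 ≤ x by linarith) (show 0 < ε / 8 by positivity)
  have h2 : 0 ≤ Real.log x := Real.log_nonneg hx
  have h3 : (x ^ (ε / 8)) ^ 2 = x ^ (ε / 4) := by
    rw [← Real.rpow_natCast, ← Real.rpow_mul (by linarith)]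
    congr 1
    push_cast
    ring
  calc (Real.log x) ^ 2 ≤ (x ^ (ε / 8) / (ε / 8)) ^ 2 := pow_le_pow_left₀ h2 h1 2
    _ = 64 / ε ^ 2 * (x ^ (ε / 8)) ^ 2 := by field_simp; ring
    _ = 64 / ε ^ 2 * x ^ (ε / 4) := by rw [h3]

end Md

theorem mid : ∀ ε : ℝ, 0 < ε → ∃ C : ℝ, 0 < C ∧ ∀ (N b A : ℕ) [NeZero A], 1 ≤ N →
    (b : ℝ) ≤ (N : ℝ) ^ 2 → Good ((N + 1) ^ 60) A → ∀ a : ℕ → ℕ → ℂ,
    nsq (Icc (b + 1) (b + N)) N a ≤ 1 → ∀ lam : ℝ, (N : ℝ) ^ (1 / 2 + ε) ≤ lam →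
    ((lev A (Icc (b + 1) (b + N)) N a lam).card : ℝ) ≤
      C * (N : ℝ) ^ ε * lam ^ (-3 : ℝ) * A ^ 2 := by
  intro ε hε
  obtain ⟨C4, hC4, hL4⟩ := L4L2 ε hε
  obtain ⟨c, hc, Y₀, hpr⟩ := prime_supply
  -- constants
  set C5 : ℝ := 64 / ε ^ 2 with hC5
  have hC5pos : 0 < C5 := by positivity
  -- large N
  have hlarge : ∃ N₀ : ℕ, ∀ N : ℕ, N₀ ≤ N → 64 ≤ N ∧ 160 * C5 / c ≤ (N : ℝ) ^ (3 * ε / 4) ∧
      8 * (|Y₀| + 3) ≤ (N : ℝ) ^ (1 / 2 : ℝ) := by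
    have h1 : ∀ᶠ N : ℕ in Filter.atTop, 64 ≤ N := Filter.eventually_ge_atTop 64
    have h2 : ∀ᶠ N : ℕ in Filter.atTop, 160 * C5 / c ≤ (N : ℝ) ^ (3 * ε / 4) :=
      ((tendsto_rpow_atTop (by positivity)).comp tendsto_natCast_atTop_atTop).eventually_ge_atTop _
    have h3 : ∀ᶠ N : ℕ in Filter.atTop, 8 * (|Y₀| + 3) ≤ (N : ℝ) ^ (1 / 2 : ℝ) :=
      ((tendsto_rpow_atTop (by positivity)).comp tendsto_natCast_atTop_atTop).eventually_ge_atTop _
    obtain ⟨N₀, hN₀⟩ := Filter.eventually_atTop.mp (h1.and (h2.and h3))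
    exact ⟨N₀, fun N hN => hN₀ N hN⟩
  obtain ⟨N₀, hlarge⟩ := hlarge
  set C : ℝ := max (512 * C5 / c + 5120 * Real.sqrt C4 * (C5 / c) + 3) ((N₀ : ℝ) ^ 3 + 1) with hC
  refine ⟨C, lt_of_lt_of_le (by positivity) (le_max_right _ _), ?_⟩
  intro N b A _ hN hb hgood a ha lam hlam
  have hA0 : (0 : ℝ) < A := Nat.cast_pos.mpr (Nat.pos_of_ne_zero (NeZero.ne A))
  have hN1 : (1 : ℝ) ≤ N := by exact_mod_cast hN
  have hN0 : (0 : ℝ) < N := by linarith
  have hlam1 : 1 ≤ lam := (Real.one_le_rpow hN1 (by positivity)).trans hlam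
  have hlam0 : 0 < lam := by linarith
  have hIc : (Icc (b + 1) (b + N)).card ≤ N := by
    rw [Nat.card_Icc]
    omega
  have hCpos : 0 < C := lt_of_lt_of_le (by positivity) (le_max_right _ _)
  have hl3 : lam ^ (-3 : ℝ) = (lam ^ 3)⁻¹ := by
    rw [Real.rpow_neg hlam0.le]
    congr 1
    exact_mod_cast Real.rpow_natCast lam 3
  rw [hl3]
  by_cases hlN : lam ≤ N
  swap
  · -- empty level set
    have h1 : lev A (Icc (b + 1) (b + N)) N a lam = ∅ := by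
      unfold lev
      rw [filter_eq_empty_iff]
      intro w _ h
      have := Md.norm_F_le A _ N hIc a ha w.1 w.2
      linarith
    rw [h1, card_empty, Nat.cast_zero]
    positivity
  by_cases hNN : N₀ ≤ N
  swap
  · -- small N
    have h1 : ((lev A (Icc (b + 1) (b + N)) N a lam).card : ℝ) ≤ (A : ℝ) ^ 2 := by
      have h2 := card_le_univ (lev A (Icc (b + 1) (b + N)) N a lam)
      rw [Fintype.card_prod, ZMod.card] at h2
      calc ((lev A (Icc (b + 1) (b + N)) N a lam).card : ℝ) ≤ ((A * A : ℕ) : ℝ) := by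
            exact_mod_cast h2
        _ = _ := by push_cast; ring
    refine h1.trans ?_
    have h2 : (N : ℝ) ≤ N₀ := by
      have : N ≤ N₀ := by omega
      exact_mod_cast this
    have h3 : lam ^ 3 ≤ C := by
      calc lam ^ 3 ≤ (N₀ : ℝ) ^ 3 := pow_le_pow_left₀ hlam0.le (hlN.trans h2) 3
        _ ≤ (N₀ : ℝ) ^ 3 + 1 := by linarith
        _ ≤ C := le_max_right _ _
    have h4 : 1 ≤ C * (N : ℝ) ^ ε * (lam ^ 3)⁻¹ := by
      rw [← div_eq_mul_inv, one_le_div (by positivity)]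
      calc lam ^ 3 ≤ C := h3
        _ = C * 1 := (mul_one _).symm
        _ ≤ C * (N : ℝ) ^ ε :=
            mul_le_mul_of_nonneg_left (Real.one_le_rpow hN1 hε.le) hCpos.le
    calc (A : ℝ) ^ 2 = 1 * (A : ℝ) ^ 2 := (one_mul _).symm
      _ ≤ _ := mul_le_mul_of_nonneg_right h4 (by positivity)
  obtain ⟨hN64, hbig, hY0⟩ := hlarge N hNN
  have hN64' : (64 : ℝ) ≤ N := by exact_mod_cast hN64
  set Y : ℝ := lam / 8 with hY
  have hhalf : (N : ℝ) ^ (1 / 2 : ℝ) ≤ lam := by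
    refine le_trans ?_ hlam
    exact Real.rpow_le_rpow_of_exponent_le hN1 (by linarith)
  have hY3 : |Y₀| + 3 ≤ Y := by
    rw [hY, le_div_iff₀ (by norm_num)]
    linarith
  have hYY : Y₀ ≤ Y := by linarith [le_abs_self Y₀]
  have hY3' : 3 ≤ Y := by linarith [abs_nonneg Y₀]
  obtain ⟨Y', Q, hY'1, hY'2, hQ, hQc⟩ := hpr Y hYY
  -- logarithm
  have hlogY : 1 ≤ Real.log Y := by
    rw [Real.le_log_iff_exp_le (by linarith)]
    have := Real.exp_one_lt_d9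
    linarith
  have hYN : Y ≤ N := by
    rw [hY]
    linarith
  have hlogN : (Real.log Y) ^ 2 ≤ C5 * (N : ℝ) ^ (ε / 4) := by
    refine le_trans ?_ (Md.log_sq_le ε hε N hN1)
    exact pow_le_pow_left₀ (by linarith) (Real.log_le_log (by linarith) hYN) 2
  have hlogpos : 0 < (Real.log Y) ^ 2 := by positivity
  have hNe : 0 < (N : ℝ) ^ (ε / 4) := Real.rpow_pos_of_pos hN0 _
  set g : ℝ := C5 * (N : ℝ) ^ (ε / 4) with hg
  have hgpos : 0 < g := by positivity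
  -- lower bound for the size
  have hlow : c * Y / g ≤ c * Y / (Real.log Y) ^ 2 :=
    div_le_div_of_nonneg_left (by positivity) hlogpos hlogN
  have hB : 20 * (N : ℝ) ^ (1 / 2 : ℝ) ≤ c * Y / g := by
    rw [le_div_iff₀ hgpos, hg, hY]
    have h1 : (N : ℝ) ^ (1 / 2 + ε) = (N : ℝ) ^ (1 / 2 : ℝ) * ((N : ℝ) ^ (3 * ε / 4) *
        (N : ℝ) ^ (ε / 4)) := by
      rw [← Real.rpow_add hN0, ← Real.rpow_add hN0]
      congr 1
      ring
    have h2 : 160 * C5 ≤ c * (N : ℝ) ^ (3 * ε / 4) := by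
      rw [div_le_iff₀ hc] at hbig
      linarith
    have hNh : 0 < (N : ℝ) ^ (1 / 2 : ℝ) := Real.rpow_pos_of_pos hN0 _
    calc 20 * (N : ℝ) ^ (1 / 2 : ℝ) * (C5 * (N : ℝ) ^ (ε / 4))
        = (160 * C5) * ((N : ℝ) ^ (1 / 2 : ℝ) * (N : ℝ) ^ (ε / 4)) / 8 := by ring
      _ ≤ (c * (N : ℝ) ^ (3 * ε / 4)) * ((N : ℝ) ^ (1 / 2 : ℝ) * (N : ℝ) ^ (ε / 4)) / 8 := by
          apply div_le_div_of_nonneg_right _ (by norm_num)
          exact mul_le_mul_of_nonneg_right h2 (by positivity)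
      _ = c * ((N : ℝ) ^ (1 / 2 + ε) / 8) := by rw [h1]; ring
      _ ≤ c * (lam / 8) := by
          apply mul_le_mul_of_nonneg_left _ hc.le
          exact div_le_div_of_nonneg_right hlam (by norm_num)
  have hsq : ((N : ℝ) ^ (1 / 2 : ℝ)) ^ 2 = N := by
    rw [← Real.rpow_natCast, ← Real.rpow_mul hN0.le]
    norm_num
  have hNh8 : (8 : ℝ) ≤ (N : ℝ) ^ (1 / 2 : ℝ) := by
    have h1 : (8 : ℝ) ^ 2 ≤ ((N : ℝ) ^ (1 / 2 : ℝ)) ^ 2 := by
      rw [hsq]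
      linarith
    exact (pow_le_pow_iff_left₀ (by norm_num) (by positivity) two_ne_zero).mp h1
  have hYbig : 20 * (N : ℝ) ^ (1 / 2 : ℝ) ≤ Y' := hB.trans (hlow.trans hY'1)
  have hQbig : 20 * (N : ℝ) ^ (1 / 2 : ℝ) ≤ Q.card := hB.trans (hlow.trans hQc)
  have hY1 : 2 * N ≤ Y' ^ 2 := by
    have h1 : (20 * (N : ℝ) ^ (1 / 2 : ℝ)) ^ 2 ≤ (Y' : ℝ) ^ 2 :=
      pow_le_pow_left₀ (by positivity) hYbig 2
    rw [mul_pow, hsq] at h1
    have h2 : (2 * N : ℝ) ≤ (Y' : ℝ) ^ 2 := by linarith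
    exact_mod_cast h2
  have hY3n : 3 ≤ Y' := by
    have h1 : (3 : ℝ) ≤ Y' := by linarith
    exact_mod_cast h1
  have hQ8 : 8 ≤ Q.card := by
    have h1 : (8 : ℝ) ≤ Q.card := by linarith
    exact_mod_cast h1
  -- core inequality
  have hnsq0 : 0 ≤ nsq (Icc (b + 1) (b + N)) N a :=
    sum_nonneg fun _ _ => sum_nonneg fun _ _ => sq_nonneg _
  have hG : (A : ℝ)⁻¹ * ∑ z : ZMod A,
      ((A : ℝ)⁻¹ * ∑ y : ZMod A, ‖F A (Icc (b + 1) (b + N)) N a z y‖ ^ 2) ^ 2 ≤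
      C4 * (N : ℝ) ^ ε := by
    refine (hL4 N b A hN hb (size_ok hN hb hgood) a).trans ?_
    have h6 : nsq (Icc (b + 1) (b + N)) N a ^ 2 ≤ 1 := pow_le_one₀ hnsq0 ha
    calc C4 * (N : ℝ) ^ ε * nsq (Icc (b + 1) (b + N)) N a ^ 2
        ≤ C4 * (N : ℝ) ^ ε * 1 := mul_le_mul_of_nonneg_left h6 (by positivity)
      _ = _ := mul_one _
  obtain ⟨μ, hμ, hcore⟩ := Md.core (fun A N _ => sieve A N) (fun A N d _ hN hd u => Th_big A N d hN hd u)
    (fun A _ f k hk => ft_le_tv A f k hk) A N b hN hb hgood a ha lam hlam1 hlN Q Y' hQ hY1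
    (by rw [hY] at hY'2; linarith) hY3n hQ8 _ hG
  have hμ0 : 0 ≤ μ := le_trans (by positivity) hμ
  have hQpos : (0 : ℝ) < Q.card := by
    have : 0 < Q.card := by omega
    exact_mod_cast this
  have hcYg : 0 < c * Y / g := by positivity
  have hQg : c * Y / g ≤ Q.card := hlow.trans hQc
  set X : ℝ := lam ^ 3 * μ with hX
  have hX0 : 0 ≤ X := by positivity
  have h1 : lam / Q.card ≤ 8 * g / c := by
    rw [div_le_div_iff₀ hQpos hc]
    have h2 : lam * c = 8 * g * (c * Y / g) := by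
      rw [hY]
      field_simp
    rw [h2]
    exact mul_le_mul_of_nonneg_left hQg (by positivity)
  have h2 : (Y' : ℝ) / Q.card ≤ g / c := by
    rw [div_le_div_iff₀ hQpos hc]
    have h3 : (Y' : ℝ) ≤ Y := by
      have : (0 : ℝ) ≤ Y' := Nat.cast_nonneg _
      linarith
    have h4 : Y * c = g * (c * Y / g) := by
      field_simp
    calc (Y' : ℝ) * c ≤ Y * c := mul_le_mul_of_nonneg_right h3 hc.le
      _ = g * (c * Y / g) := h4
      _ ≤ _ := mul_le_mul_of_nonneg_left hQg hgpos.le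
  have h3 : X ^ 2 ≤ (512 * g / c) * X + (26214400 * (g / c) ^ 2 * (C4 * (N : ℝ) ^ ε) + 8) := by
    have h4 : X ^ 2 = 8 * lam ^ 4 * (lam ^ 2 * μ ^ 2 / 8) := by
      rw [hX]
      ring
    have h5 : 8 * lam ^ 4 * (8 * μ / Q.card + 3276800 * ((Y' : ℝ) / Q.card) ^ 2 *
        ((lam ^ 4)⁻¹ * (C4 * (N : ℝ) ^ ε)) + (lam ^ 4)⁻¹) =
        64 * (lam / Q.card) * X + 26214400 * ((Y' : ℝ) / Q.card) ^ 2 * (C4 * (N : ℝ) ^ ε) + 8 := by
      rw [hX]
      field_simp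
      ring
    have h6 : 64 * (lam / Q.card) * X ≤ 512 * g / c * X := by
      apply mul_le_mul_of_nonneg_right _ hX0
      calc 64 * (lam / (Q.card : ℝ)) ≤ 64 * (8 * g / c) := mul_le_mul_of_nonneg_left h1 (by norm_num)
        _ = 512 * g / c := by ring
    have h7 : 26214400 * ((Y' : ℝ) / Q.card) ^ 2 * (C4 * (N : ℝ) ^ ε) ≤
        26214400 * (g / c) ^ 2 * (C4 * (N : ℝ) ^ ε) := by
      apply mul_le_mul_of_nonneg_right _ (by positivity)
      apply mul_le_mul_of_nonneg_left _ (by norm_num)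
      exact pow_le_pow_left₀ (by positivity) h2 2
    calc X ^ 2 = 8 * lam ^ 4 * (lam ^ 2 * μ ^ 2 / 8) := h4
      _ ≤ 8 * lam ^ 4 * (8 * μ / Q.card + 3276800 * ((Y' : ℝ) / Q.card) ^ 2 *
        ((lam ^ 4)⁻¹ * (C4 * (N : ℝ) ^ ε)) + (lam ^ 4)⁻¹) :=
          mul_le_mul_of_nonneg_left hcore (by positivity)
      _ = _ := h5
      _ ≤ _ := by linarith
  have h4 : X ≤ 512 * g / c + (5120 * (g / c) * (Real.sqrt C4 * (N : ℝ) ^ (ε / 2)) + 3) := by
    apply Md.quad (by positivity) (by positivity)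
    refine h3.trans ?_
    apply add_le_add le_rfl
    have h5 : (Real.sqrt C4) ^ 2 = C4 := Real.sq_sqrt hC4.le
    have h6 : ((N : ℝ) ^ (ε / 2)) ^ 2 = (N : ℝ) ^ ε := by
      rw [← Real.rpow_natCast, ← Real.rpow_mul hN0.le]
      congr 1
      push_cast
      ring
    have h7 : 0 ≤ (g / c) * (Real.sqrt C4 * (N : ℝ) ^ (ε / 2)) := by positivity
    have h8 : (5120 * (g / c) * (Real.sqrt C4 * (N : ℝ) ^ (ε / 2)) + 3) ^ 2 =
        26214400 * (g / c) ^ 2 * (C4 * (N : ℝ) ^ ε) +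
          30720 * ((g / c) * (Real.sqrt C4 * (N : ℝ) ^ (ε / 2))) + 9 := by
      rw [← h6]
      nth_rewrite 2 [← h5]
      ring
    rw [h8]
    linarith
  have h5 : X ≤ (512 * C5 / c + 5120 * Real.sqrt C4 * (C5 / c) + 3) * (N : ℝ) ^ ε := by
    have hpe : (N : ℝ) ^ (ε / 4) ≤ (N : ℝ) ^ ε :=
      Real.rpow_le_rpow_of_exponent_le hN1 (by linarith)
    have hpe2 : (N : ℝ) ^ (ε / 4) * (N : ℝ) ^ (ε / 2) ≤ (N : ℝ) ^ ε := by
      rw [← Real.rpow_add hN0]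
      exact Real.rpow_le_rpow_of_exponent_le hN1 (by linarith)
    have hpe1 : (1 : ℝ) ≤ (N : ℝ) ^ ε := Real.one_le_rpow hN1 hε.le
    calc X ≤ 512 * g / c + (5120 * (g / c) * (Real.sqrt C4 * (N : ℝ) ^ (ε / 2)) + 3) := h4
      _ = 512 * C5 / c * (N : ℝ) ^ (ε / 4) + 5120 * Real.sqrt C4 * (C5 / c) *
          ((N : ℝ) ^ (ε / 4) * (N : ℝ) ^ (ε / 2)) + 3 * 1 := by
          rw [hg]
          ring
      _ ≤ 512 * C5 / c * (N : ℝ) ^ ε + 5120 * Real.sqrt C4 * (C5 / c) * (N : ℝ) ^ ε +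
          3 * (N : ℝ) ^ ε := by
          apply add_le_add (add_le_add _ _) _
          · exact mul_le_mul_of_nonneg_left hpe (by positivity)
          · exact mul_le_mul_of_nonneg_left hpe2 (by positivity)
          · exact mul_le_mul_of_nonneg_left hpe1 (by norm_num)
      _ = _ := by ring
  have h6 : X ≤ C * (N : ℝ) ^ ε := by
    refine h5.trans ?_
    apply mul_le_mul_of_nonneg_right (le_max_left _ _) (by positivity)
  have h7 : μ ≤ C * (N : ℝ) ^ ε * (lam ^ 3)⁻¹ := by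
    rw [← div_eq_mul_inv, le_div_iff₀ (by positivity)]
    rw [hX] at h6
    linarith
  have h8 := hμ.trans h7
  rw [div_le_iff₀ (by positivity)] at h8
  exact h8

end Stz
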