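import Pool.Agent.Helper65.Stz.Md1
import Pool.Agent.Helper65.Stz.Crit

/-!
# Middle levels: the basic inequality
-/

set_option autoImplicit false

namespace Stz.Md

open Finset

/-- statement of the sieve inequality -/
def S_sieve : Prop :=
  ∀ (A N : ℕ) [NeZero A] (_ : 1 ≤ N) (I : Finset ℕ) (_ : ∀ n ∈ I, 1 ≤ n ∧ n ^ 2 < A)
    (Q : Finset ℕ) (_ : ∀ q ∈ Q, q.Prime ∧ q ≠ 2 ∧ q ∣ A) (_ : Q.Nonempty)
    (_ : ∀ n ∈ I, 2 * (Q.filter fun q => q ∣ n).card ≤ Q.card)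
    (f : ZMod A → ZMod A → ℂ),
    En A I N f ≤ 4 / Q.card * ∑ m ∈ Icc (-(2 * N : ℤ)) (2 * N),
        wt N m * ((A : ℝ)⁻¹ * ∑ z, ‖fm A f m z‖ ^ 2)
      + 4 / (Q.card : ℝ) ^ 2 * ∑ p ∈ Q.offDiag, ((p.1 : ℝ) * p.2)⁻¹ *
        ∑ a ∈ range p.1, ∑ a' ∈ range p.2, (A : ℝ)⁻¹ * ∑ z : ZMod A, (A : ℝ)⁻¹ ^ 2 *
          ∑ y : ZMod A, ∑ y' : ZMod A, ‖f z y‖ * ‖f (z + sh A p.1 p.2 a a') y'‖ *
            Th A N (p.1 * p.2) (y' - y)

/-- statement of `Th_big` -/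
def S_big : Prop :=
  ∀ (A N d : ℕ) [NeZero A] (_ : 1 ≤ N) (_ : 2 * N ≤ d) (u : ZMod A), Th A N d u = 2 * d

/-- statement of `ft_le_tv` -/
def S_ft : Prop :=
  ∀ (A : ℕ) [NeZero A] (f : ZMod A → ℂ) (k : ZMod A), k ≠ 0 →
    ‖ft A f k‖ ≤ tv A f / (4 * |(k.valMinAbs : ℝ)|)

section

variable (A : ℕ) [NeZero A]

theorem wt_le_two (N : ℕ) (m : ℤ) : wt N m ≤ 2 := by
  unfold wt
  apply max_le (by norm_num)
  have : 0 ≤ |(m : ℝ)| / N := by positivity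
  linarith

theorem wt_nonneg (N : ℕ) (m : ℤ) : 0 ≤ wt N m := le_max_left _ _

/-- diagonal term -/
theorem diag_le (N : ℕ) (hA : 4 * N < A) (W : Finset (ZMod A × ZMod A)) (f : ZMod A → ZMod A → ℂ)
    (hf : ∀ z y, ‖f z y‖ ≤ if (z, y) ∈ W then 1 else 0) :
    ∑ m ∈ Icc (-(2 * N : ℤ)) (2 * N), wt N m * ((A : ℝ)⁻¹ * ∑ z, ‖fm A f m z‖ ^ 2) ≤
      2 * ((W.card : ℝ) / A ^ 2) := by
  classical
  have hA0 : (0 : ℝ) < A := Nat.cast_pos.mpr (Nat.pos_of_ne_zero (NeZero.ne A))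
  have h1 : ∀ z : ZMod A, ∑ m ∈ Icc (-(2 * N : ℤ)) (2 * N), ‖fm A f m z‖ ^ 2 ≤ rho A W z := by
    intro z
    have hinj : Set.InjOn (fun m : ℤ => (m : ZMod A)) (Icc (-(2 * N : ℤ)) (2 * N) : Finset ℤ) := by
      intro m hm m' hm' h
      rw [coe_Icc, Set.mem_Icc] at hm hm'
      have h2 : (A : ℤ) ∣ m' - m := (ZMod.intCast_eq_intCast_iff_dvd_sub m m' A).mp h
      have h3 : |m' - m| < A := by
        rw [abs_lt]
        constructor <;> omega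
      have h4 := Int.eq_zero_of_abs_lt_dvd h2 h3
      omega
    have h2 : ∀ m : ℤ, fm A f m z = ft A (f z) (m : ZMod A) := by
      intro m
      rfl
    simp only [h2]
    rw [← sum_image (f := fun k => ‖ft A (f z) k‖ ^ 2) hinj]
    refine (sum_le_sum_of_subset_of_nonneg (subset_univ _) fun _ _ _ => sq_nonneg _).trans ?_
    rw [parseval]
    unfold rho
    apply mul_le_mul_of_nonneg_left _ (by positivity)
    apply sum_le_sum
    intro y _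
    have h3 := hf z y
    by_cases h4 : (z, y) ∈ W
    · rw [if_pos h4] at h3 ⊢
      exact pow_le_one₀ (norm_nonneg _) h3
    · rw [if_neg h4] at h3 ⊢
      have h5 : ‖f z y‖ = 0 := le_antisymm h3 (norm_nonneg _)
      rw [h5]
      norm_num
  calc ∑ m ∈ Icc (-(2 * N : ℤ)) (2 * N), wt N m * ((A : ℝ)⁻¹ * ∑ z, ‖fm A f m z‖ ^ 2)
      ≤ ∑ m ∈ Icc (-(2 * N : ℤ)) (2 * N), 2 * ((A : ℝ)⁻¹ * ∑ z, ‖fm A f m z‖ ^ 2) := by
        apply sum_le_sum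
        intro m _
        apply mul_le_mul_of_nonneg_right (wt_le_two N m)
        exact mul_nonneg (by positivity) (sum_nonneg fun _ _ => sq_nonneg _)
    _ = 2 * ((A : ℝ)⁻¹ * ∑ z, ∑ m ∈ Icc (-(2 * N : ℤ)) (2 * N), ‖fm A f m z‖ ^ 2) := by
        rw [← mul_sum, ← mul_sum, sum_comm]
    _ ≤ 2 * ((A : ℝ)⁻¹ * ∑ z, rho A W z) := by
        apply mul_le_mul_of_nonneg_left _ (by norm_num)
        apply mul_le_mul_of_nonneg_left _ (by positivity)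
        exact sum_le_sum fun z _ => h1 z
    _ = _ := by rw [sum_rho]

/-- off-diagonal term for one pair -/
theorem off_le (hbig : S_big) (N : ℕ) (hN : 1 ≤ N) (W : Finset (ZMod A × ZMod A))
    (f : ZMod A → ZMod A → ℂ) (hf : ∀ z y, ‖f z y‖ ≤ if (z, y) ∈ W then 1 else 0)
    (q q' : ℕ) (hq : 0 < q) (hq' : 0 < q') (hqA : q ∣ A) (hqA' : q' ∣ A) (hqq : 2 * N ≤ q * q') :
    ((q : ℝ) * q')⁻¹ * ∑ a ∈ range q, ∑ a' ∈ range q', (A : ℝ)⁻¹ * ∑ z : ZMod A,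
      (A : ℝ)⁻¹ ^ 2 * ∑ y : ZMod A, ∑ y' : ZMod A, ‖f z y‖ * ‖f (z + sh A q q' a a') y'‖ *
        Th A N (q * q') (y' - y) ≤
    2 * ((q : ℝ) * q') * ∑ k ∈ univ.filter (fun k : ZMod A => q ∣ k.val ∧ q' ∣ k.val),
      ‖ft A (fun z => (rho A W z : ℂ)) k‖ ^ 2 := by
  have hA0 : (0 : ℝ) < A := Nat.cast_pos.mpr (Nat.pos_of_ne_zero (NeZero.ne A))
  rw [← corr A q q' hq hq' hqA hqA' (rho A W)]
  have h1 : ∀ z s : ZMod A, (A : ℝ)⁻¹ ^ 2 * ∑ y : ZMod A, ∑ y' : ZMod A, ‖f z y‖ *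
      ‖f (z + s) y'‖ * Th A N (q * q') (y' - y) ≤
      2 * ((q : ℝ) * q') * (rho A W z * rho A W (z + s)) := by
    intro z s
    have h2 : ∀ y y' : ZMod A, ‖f z y‖ * ‖f (z + s) y'‖ * Th A N (q * q') (y' - y) ≤
        2 * ((q : ℝ) * q') * ((if (z, y) ∈ W then 1 else 0) *
          (if (z + s, y') ∈ W then 1 else 0)) := by
      intro y y'
      rw [hbig A N (q * q') hN hqq]
      push_cast
      have h3 := mul_le_mul (hf z y) (hf (z + s) y') (norm_nonneg _) (by split_ifs <;> norm_num)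
      calc ‖f z y‖ * ‖f (z + s) y'‖ * (2 * ((q : ℝ) * q')) ≤
            ((if (z, y) ∈ W then 1 else 0) * (if (z + s, y') ∈ W then 1 else 0)) *
              (2 * ((q : ℝ) * q')) := mul_le_mul_of_nonneg_right h3 (by positivity)
        _ = _ := by ring
    calc (A : ℝ)⁻¹ ^ 2 * ∑ y : ZMod A, ∑ y' : ZMod A, ‖f z y‖ *
          ‖f (z + s) y'‖ * Th A N (q * q') (y' - y)
        ≤ (A : ℝ)⁻¹ ^ 2 * ∑ y : ZMod A, ∑ y' : ZMod A, 2 * ((q : ℝ) * q') *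
          ((if (z, y) ∈ W then 1 else 0) * (if (z + s, y') ∈ W then 1 else 0)) := by
          apply mul_le_mul_of_nonneg_left _ (by positivity)
          exact sum_le_sum fun y _ => sum_le_sum fun y' _ => h2 y y'
      _ = _ := by
          unfold rho
          simp only [← mul_sum]
          rw [← sum_mul]
          ring
  calc _ ≤ ((q : ℝ) * q')⁻¹ * ∑ a ∈ range q, ∑ a' ∈ range q', (A : ℝ)⁻¹ * ∑ z : ZMod A,
        2 * ((q : ℝ) * q') * (rho A W z * rho A W (z + sh A q q' a a')) := by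
        apply mul_le_mul_of_nonneg_left _ (by positivity)
        refine sum_le_sum fun a _ => sum_le_sum fun a' _ => ?_
        apply mul_le_mul_of_nonneg_left _ (by positivity)
        exact sum_le_sum fun z _ => h1 z _
    _ = _ := by
        have h3 : ∀ a a' : ℕ, (A : ℝ)⁻¹ * ∑ z : ZMod A, 2 * ((q : ℝ) * q') *
            (rho A W z * rho A W (z + sh A q q' a a')) =
            2 * ((q : ℝ) * q') * ((A : ℝ)⁻¹ *
              ∑ z : ZMod A, rho A W z * rho A W (z + sh A q q' a a')) := by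
          intro a a'
          rw [← mul_sum]
          ring
        have h4 : ∑ a ∈ range q, ∑ a' ∈ range q', (A : ℝ)⁻¹ * ∑ z : ZMod A, 2 * ((q : ℝ) * q') *
            (rho A W z * rho A W (z + sh A q q' a a')) =
            2 * ((q : ℝ) * q') * ∑ a ∈ range q, ∑ a' ∈ range q', (A : ℝ)⁻¹ *
              ∑ z : ZMod A, rho A W z * rho A W (z + sh A q q' a a') := by
          rw [mul_sum]
          refine sum_congr rfl fun a _ => ?_
          rw [mul_sum]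
          exact sum_congr rfl fun a' _ => h3 a a'
        rw [h4]
        ring

/-- number of prime divisors of a frequency -/
theorem dvd_val_iff (q : ℕ) (hqA : q ∣ A) (k : ZMod A) : q ∣ k.val ↔ q ∣ k.valMinAbs.natAbs := by
  have h1 : (A : ℤ) ∣ (k.val : ℤ) - k.valMinAbs := by
    rw [← ZMod.intCast_eq_intCast_iff_dvd_sub, ZMod.coe_valMinAbs, Int.cast_natCast,
      ZMod.natCast_zmod_val]
  have h2 : (q : ℤ) ∣ (k.val : ℤ) - k.valMinAbs := (Int.natCast_dvd_natCast.mpr hqA).trans h1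
  rw [← Int.natCast_dvd_natCast, ← Int.natCast_dvd]
  constructor
  · intro h
    have := dvd_sub h h2
    rwa [sub_sub_cancel] at this
  · intro h
    have := dvd_add h2 h
    rwa [sub_add_cancel] at this

/-- sum over pairs of the correlation terms -/
theorem pair_sum (hft : S_ft) (N M : ℕ) (hN : 1 ≤ N) (Q : Finset ℕ) (Y : ℕ)
    (hQ : ∀ q ∈ Q, q.Prime ∧ Y ≤ q) (hQA : ∀ q ∈ Q, q ∣ A) (hY : N + 1 ≤ Y ^ 2)
    (r : ZMod A → ℝ) (V : ℝ) (hV : tv A (fun z => (r z : ℂ)) ≤ V) :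
    ∑ p ∈ Q.offDiag, ∑ k ∈ univ.filter (fun k : ZMod A => p.1 ∣ k.val ∧ p.2 ∣ k.val),
      ‖ft A (fun z => (r z : ℂ)) k‖ ^ 2 ≤
    (Q.card : ℝ) ^ 2 * ((A : ℝ)⁻¹ * ∑ z, r z) ^ 2 +
      (2 * M : ℝ) ^ 2 * ((A : ℝ)⁻¹ * ∑ z, r z ^ 2) +
      (Q.card : ℝ) ^ 2 * (V ^ 2 / (4 * (((N + 1 : ℕ) : ℝ) ^ M + 1))) := by
  classical
  set h : ZMod A → ℝ := fun k => ‖ft A (fun z => (r z : ℂ)) k‖ ^ 2 with hh
  have hnn : ∀ k, 0 ≤ h k := fun k => sq_nonneg _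
  have h1 : ∑ p ∈ Q.offDiag, ∑ k ∈ univ.filter (fun k : ZMod A => p.1 ∣ k.val ∧ p.2 ∣ k.val), h k
      ≤ ∑ k : ZMod A, ((Q.filter fun q => q ∣ k.val).card : ℝ) ^ 2 * h k := by
    calc _ = ∑ p ∈ Q.offDiag, ∑ k : ZMod A, if p.1 ∣ k.val ∧ p.2 ∣ k.val then h k else 0 := by
          refine sum_congr rfl fun p _ => ?_
          rw [sum_filter]
      _ ≤ ∑ p ∈ Q ×ˢ Q, ∑ k : ZMod A, if p.1 ∣ k.val ∧ p.2 ∣ k.val then h k else 0 := by
          apply sum_le_sum_of_subset_of_nonneg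
          · intro p hp
            rw [mem_offDiag] at hp
            exact mem_product.mpr ⟨hp.1, hp.2.1⟩
          · intro p _ _
            exact sum_nonneg fun k _ => by split_ifs <;> [exact hnn k; exact le_rfl]
      _ = ∑ k : ZMod A, ∑ p ∈ Q ×ˢ Q, if p.1 ∣ k.val ∧ p.2 ∣ k.val then h k else 0 := sum_comm
      _ = _ := by
          refine sum_congr rfl fun k _ => ?_
          rw [← sum_filter, sum_const, nsmul_eq_mul, sq, ← Nat.cast_mul, ← card_product,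
            filter_product (fun q => q ∣ k.val) (fun q => q ∣ k.val)]
  have h2 : ∀ k : ZMod A, ((Q.filter fun q => q ∣ k.val).card : ℝ) ^ 2 * h k ≤
      (if k = 0 then (Q.card : ℝ) ^ 2 * h k else 0) + (2 * M : ℝ) ^ 2 * h k +
      (if (N + 1) ^ M < k.valMinAbs.natAbs then (Q.card : ℝ) ^ 2 * h k else 0) := by
    intro k
    have hc : ((Q.filter fun q => q ∣ k.val).card : ℝ) ≤ Q.card := by
      exact_mod_cast card_filter_le _ _
    have hc2 : ((Q.filter fun q => q ∣ k.val).card : ℝ) ^ 2 * h k ≤ (Q.card : ℝ) ^ 2 * h k :=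
      mul_le_mul_of_nonneg_right (pow_le_pow_left₀ (Nat.cast_nonneg _) hc 2) (hnn k)
    have hM : 0 ≤ (2 * M : ℝ) ^ 2 * h k := mul_nonneg (sq_nonneg _) (hnn k)
    have hQn : 0 ≤ (Q.card : ℝ) ^ 2 * h k := mul_nonneg (sq_nonneg _) (hnn k)
    by_cases hk : k = 0
    · rw [if_pos hk]
      split_ifs <;> linarith
    · rw [if_neg hk]
      by_cases hK : (N + 1) ^ M < k.valMinAbs.natAbs
      · rw [if_pos hK]
        linarith
      · rw [if_neg hK]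
        have h3 : (Q.filter fun q => q ∣ k.val) = Q.filter fun q => q ∣ k.valMinAbs.natAbs := by
          apply filter_congr
          intro q hq
          exact dvd_val_iff A q (hQA q hq) k
        have h4 : (Q.filter fun q => q ∣ k.val).card ≤ 2 * M := by
          rw [h3]
          apply card_primes_dvd N M _ hN Q Y hQ hY _ (not_lt.mp hK)
          apply Nat.pos_of_ne_zero
          intro h5
          apply hk
          have h6 := ZMod.coe_valMinAbs k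
          rw [Int.natAbs_eq_zero.mp h5] at h6
          rw [← h6]
          simp
        have h5 : ((Q.filter fun q => q ∣ k.val).card : ℝ) ≤ 2 * M := by exact_mod_cast h4
        have h6 : ((Q.filter fun q => q ∣ k.val).card : ℝ) ^ 2 * h k ≤ (2 * M : ℝ) ^ 2 * h k :=
          mul_le_mul_of_nonneg_right (pow_le_pow_left₀ (Nat.cast_nonneg _) h5 2) (hnn k)
        linarith
  have h0 : h 0 = ((A : ℝ)⁻¹ * ∑ z, r z) ^ 2 := by
    rw [hh]
    simp only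
    unfold ft
    simp only [zero_mul, ps_zero, mul_one]
    rw [← Complex.ofReal_sum, norm_mul, norm_inv, Complex.norm_natCast, Complex.norm_real,
      mul_pow, Real.norm_eq_abs, sq_abs, ← mul_pow]
  have hpar : ∑ k : ZMod A, h k = (A : ℝ)⁻¹ * ∑ z, r z ^ 2 := by
    rw [hh]
    simp only
    rw [parseval]
    simp only [Complex.norm_real, Real.norm_eq_abs, sq_abs]
  have htail := tail A (hft A) (fun z => (r z : ℂ)) V hV ((N + 1) ^ M)
  refine h1.trans ((sum_le_sum fun k _ => h2 k).trans ?_)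
  rw [sum_add_distrib, sum_add_distrib, sum_ite_eq' univ (0 : ZMod A), if_pos (mem_univ _), h0,
    ← mul_sum, hpar, ← sum_filter, ← mul_sum]
  apply add_le_add le_rfl
  apply mul_le_mul_of_nonneg_left _ (sq_nonneg _)
  refine htail.trans (le_of_eq ?_)
  push_cast
  ring

end

/-- oscillation in a block -/
theorem osc_le (N l A : ℕ) (hN : 1 ≤ N) (hlpos : 0 < l) (hl : A = (N + 1) ^ 12 * l) (j : ℝ)
    (hjl : |j| ≤ l) :
    (N : ℝ) * (2 * Real.pi * (((N + 1 : ℕ) : ℝ) ^ 5 * |j|) / A) ≤ 1 / 2 := by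
  have hpi : Real.pi < 4 := by linarith [Real.pi_lt_d2]
  have hN1 : (1 : ℝ) ≤ N := by exact_mod_cast hN
  have hAl : (A : ℝ) = ((N + 1 : ℕ) : ℝ) ^ 12 * l := by
    rw [hl]
    push_cast
    rfl
  have hNN : (N : ℝ) ≤ ((N + 1 : ℕ) : ℝ) := by push_cast; linarith
  have h2N : (2 : ℝ) ≤ ((N + 1 : ℕ) : ℝ) := by push_cast; linarith
  have hlr : (0 : ℝ) < l := by exact_mod_cast hlpos
  set T : ℝ := ((N + 1 : ℕ) : ℝ) with hT
  have hT0 : 0 < T := by linarith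
  rw [← mul_div_assoc, hAl, div_le_iff₀ (by positivity)]
  have h4 : (N : ℝ) * (2 * Real.pi * (T ^ 5 * |j|)) ≤ T * (2 * 4 * (T ^ 5 * l)) := by
    apply mul_le_mul hNN _ (by positivity) hT0.le
    apply mul_le_mul _ _ (by positivity) (by norm_num)
    · linarith
    · exact mul_le_mul_of_nonneg_left hjl (by positivity)
  have h5 : (16 : ℝ) ≤ T ^ 6 := by
    calc (16 : ℝ) ≤ 2 ^ 6 := by norm_num
      _ ≤ T ^ 6 := pow_le_pow_left₀ (by norm_num) h2N 6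
  calc (N : ℝ) * (2 * Real.pi * (T ^ 5 * |j|)) ≤ T * (2 * 4 * (T ^ 5 * l)) := h4
    _ = 1 / 2 * (16 * (T ^ 6 * l)) := by ring
    _ ≤ 1 / 2 * (T ^ 6 * (T ^ 6 * l)) := by
        apply mul_le_mul_of_nonneg_left _ (by norm_num)
        exact mul_le_mul_of_nonneg_right h5 (by positivity)
    _ = 1 / 2 * (T ^ 12 * l) := by ring

/-- the contribution of very high frequencies -/
theorem tiny_le (N L : ℕ) (hN : 1 ≤ N) (hL : L = (N + 1) ^ 12) (Y lam : ℝ) (hY0 : 0 ≤ Y)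
    (hlam1 : 1 ≤ lam) (hlamN : lam ≤ N) (hY2 : 16 * Y ≤ lam) :
    8 * Y ^ 2 * ((L : ℝ) ^ 2 / (((N + 1 : ℕ) : ℝ) ^ 40 + 1)) ≤ (lam ^ 4)⁻¹ := by
  have hN1 : (1 : ℝ) ≤ N := by exact_mod_cast hN
  have hNN : (N : ℝ) ≤ ((N + 1 : ℕ) : ℝ) := by push_cast; linarith
  have h2N : (2 : ℝ) ≤ ((N + 1 : ℕ) : ℝ) := by push_cast; linarith
  have hLr : (L : ℝ) = ((N + 1 : ℕ) : ℝ) ^ 12 := by rw [hL]; push_cast; rfl
  rw [hLr]
  set T : ℝ := ((N + 1 : ℕ) : ℝ) with hT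
  have hT0 : 0 < T := by linarith
  have hlT : lam ≤ T := hlamN.trans hNN
  have hYT : Y ≤ T / 16 := by linarith
  rw [← one_div, le_div_iff₀ (by positivity), ← mul_div_assoc, div_mul_eq_mul_div,
    div_le_one (by positivity)]
  have hY2' : Y ^ 2 ≤ (T / 16) ^ 2 := pow_le_pow_left₀ hY0 hYT 2
  have hl4 : lam ^ 4 ≤ T ^ 4 := pow_le_pow_left₀ (by linarith) hlT 4
  calc 8 * Y ^ 2 * (T ^ 12) ^ 2 * lam ^ 4 ≤ 8 * (T / 16) ^ 2 * (T ^ 12) ^ 2 * T ^ 4 := by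
        apply mul_le_mul _ hl4 (by positivity) (by positivity)
        apply mul_le_mul_of_nonneg_right _ (by positivity)
        exact mul_le_mul_of_nonneg_left hY2' (by norm_num)
    _ = 1 / 32 * T ^ 30 := by ring
    _ ≤ 1 * T ^ 40 := by
        apply mul_le_mul (by norm_num) _ (by positivity) (by norm_num)
        exact pow_le_pow_right₀ (by linarith) (by norm_num)
    _ ≤ T ^ 40 + 1 := by linarith

/-- the square function controls the density -/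
theorem rho2_le (A : ℕ) [NeZero A] (I : Finset ℕ) (N : ℕ) (a : ℕ → ℕ → ℂ)
    (W : Finset (ZMod A × ZMod A)) (lam G : ℝ) (hlam : 0 < lam)
    (hWF : ∀ w ∈ W, lam / 2 ≤ ‖F A I N a w.1 w.2‖)
    (hG : (A : ℝ)⁻¹ * ∑ z : ZMod A,
      ((A : ℝ)⁻¹ * ∑ y : ZMod A, ‖F A I N a z y‖ ^ 2) ^ 2 ≤ G) :
    (A : ℝ)⁻¹ * ∑ z, rho A W z ^ 2 ≤ 16 * ((lam ^ 4)⁻¹ * G) := by
  have h3 : ∀ z, rho A W z ≤ 4 * (lam ^ 2)⁻¹ *
      ((A : ℝ)⁻¹ * ∑ y : ZMod A, ‖F A I N a z y‖ ^ 2) := by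
    intro z
    unfold rho
    rw [← mul_assoc, mul_comm (4 * (lam ^ 2)⁻¹), mul_assoc]
    apply mul_le_mul_of_nonneg_left _ (by positivity)
    rw [mul_sum]
    apply sum_le_sum
    intro y _
    by_cases h4 : (z, y) ∈ W
    · rw [if_pos h4]
      have h5 := hWF _ h4
      have h6 : (lam / 2) ^ 2 ≤ ‖F A I N a z y‖ ^ 2 := pow_le_pow_left₀ (by linarith) h5 2
      have h7 : 4 * (lam ^ 2)⁻¹ * (lam / 2) ^ 2 = 1 := by
        field_simp
        norm_num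
      calc (1 : ℝ) = 4 * (lam ^ 2)⁻¹ * (lam / 2) ^ 2 := h7.symm
        _ ≤ _ := mul_le_mul_of_nonneg_left h6 (by positivity)
    · rw [if_neg h4]
      positivity
  calc (A : ℝ)⁻¹ * ∑ z, rho A W z ^ 2
      ≤ (A : ℝ)⁻¹ * ∑ z : ZMod A, (4 * (lam ^ 2)⁻¹ *
        ((A : ℝ)⁻¹ * ∑ y : ZMod A, ‖F A I N a z y‖ ^ 2)) ^ 2 := by
        apply mul_le_mul_of_nonneg_left _ (by positivity)
        exact sum_le_sum fun z _ => pow_le_pow_left₀ (rho_nonneg A W z) (h3 z) 2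
    _ = 16 * ((lam ^ 4)⁻¹ * ((A : ℝ)⁻¹ * ∑ z : ZMod A,
        ((A : ℝ)⁻¹ * ∑ y : ZMod A, ‖F A I N a z y‖ ^ 2) ^ 2)) := by
        simp only [mul_pow _ _ 2]
        rw [← mul_sum]
        field_simp
        ring
    _ ≤ _ := by
        apply mul_le_mul_of_nonneg_left _ (by norm_num)
        exact mul_le_mul_of_nonneg_left hG (by positivity)

/-- final algebra -/
theorem algebra_end (lam μ q Y G L T : ℝ) (hq : 0 < q) (hT : 0 < T)
    (h : (lam / 2 * μ) ^ 2 ≤ 8 * μ / q + 4 / q ^ 2 * (8 * Y ^ 2 * (q ^ 2 * μ ^ 2 +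
      80 ^ 2 * (16 * ((lam ^ 4)⁻¹ * G)) + q ^ 2 * (L ^ 2 / (4 * T)))))
    (hY : 256 * Y ^ 2 ≤ lam ^ 2) (htiny : 8 * Y ^ 2 * (L ^ 2 / T) ≤ (lam ^ 4)⁻¹) :
    lam ^ 2 * μ ^ 2 / 8 ≤ 8 * μ / q + 3276800 * (Y / q) ^ 2 * ((lam ^ 4)⁻¹ * G) +
      (lam ^ 4)⁻¹ := by
  have h1 : 4 / q ^ 2 * (8 * Y ^ 2 * (q ^ 2 * μ ^ 2 +
      80 ^ 2 * (16 * ((lam ^ 4)⁻¹ * G)) + q ^ 2 * (L ^ 2 / (4 * T)))) =
      32 * Y ^ 2 * μ ^ 2 + 3276800 * (Y / q) ^ 2 * ((lam ^ 4)⁻¹ * G) +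
        8 * Y ^ 2 * (L ^ 2 / T) := by
    generalize (lam ^ 4)⁻¹ * G = g
    field_simp
    ring
  rw [h1] at h
  have hY23 : 32 * Y ^ 2 * μ ^ 2 ≤ lam ^ 2 / 8 * μ ^ 2 :=
    mul_le_mul_of_nonneg_right (by linarith) (sq_nonneg _)
  have hfin1 : (lam / 2 * μ) ^ 2 = lam ^ 2 / 4 * μ ^ 2 := by ring
  have hfin2 : lam ^ 2 * μ ^ 2 / 8 = lam ^ 2 / 4 * μ ^ 2 - lam ^ 2 / 8 * μ ^ 2 := by ring
  rw [hfin1] at h
  rw [hfin2]
  linarith

/-- The basic inequality for the middle levels. -/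
theorem core (hsieve : S_sieve) (hbig : S_big) (hft : S_ft) (A N b : ℕ) [NeZero A] (hN : 1 ≤ N)
    (hb : (b : ℝ) ≤ (N : ℝ) ^ 2) (hgood : Good ((N + 1) ^ 60) A) (a : ℕ → ℕ → ℂ)
    (ha : nsq (Icc (b + 1) (b + N)) N a ≤ 1) (lam : ℝ) (hlam1 : 1 ≤ lam) (hlamN : lam ≤ N)
    (Q : Finset ℕ) (Y : ℕ) (hQ : ∀ q ∈ Q, q.Prime ∧ Y ≤ q ∧ q ≤ 2 * Y) (hY1 : 2 * N ≤ Y ^ 2)
    (hY2 : 16 * (Y : ℝ) ≤ lam) (hY3 : 3 ≤ Y) (hQc : 8 ≤ Q.card) (G : ℝ)
    (hG : (A : ℝ)⁻¹ * ∑ z : ZMod A,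
      ((A : ℝ)⁻¹ * ∑ y : ZMod A, ‖F A (Icc (b + 1) (b + N)) N a z y‖ ^ 2) ^ 2 ≤ G) :
    ∃ μ : ℝ, ((lev A (Icc (b + 1) (b + N)) N a lam).card : ℝ) / A ^ 2 ≤ μ ∧
      lam ^ 2 * μ ^ 2 / 8 ≤ 8 * μ / Q.card +
        3276800 * ((Y : ℝ) / Q.card) ^ 2 * ((lam ^ 4)⁻¹ * G) + (lam ^ 4)⁻¹ := by
  classical
  set I := Icc (b + 1) (b + N) with hI
  have hA0' : 0 < A := Nat.pos_of_ne_zero (NeZero.ne A)
  have hA0 : (0 : ℝ) < A := Nat.cast_pos.mpr hA0'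
  have hA60 := good_le hgood
  have hAsz := size_ok hN hb hgood
  have hb' : b ≤ N ^ 2 := by exact_mod_cast hb
  have hIc : I.card ≤ N := by
    rw [hI, Nat.card_Icc]
    omega
  have hN1 : (1 : ℝ) ≤ N := by exact_mod_cast hN
  have hsqN : (N + 1) ^ 2 = N ^ 2 + 2 * N + 1 := by ring
  have hpowle : ∀ i : ℕ, i ≤ 60 → (N + 1) ^ i ∣ A := fun i hi =>
    hgood _ (Nat.one_le_pow _ _ (by omega)) (Nat.pow_le_pow_right (by omega) hi)
  -- blocks
  set L : ℕ := (N + 1) ^ 12 with hL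
  have hLpos : 0 < L := Nat.pow_pos (by omega)
  obtain ⟨l, hl⟩ := hpowle 12 (by norm_num)
  have hlpos : 0 < l := by
    rcases Nat.eq_zero_or_pos l with h | h
    · rw [h, mul_zero] at hl
      omega
    · exact h
  set W0 := lev A I N a lam with hW0
  set W := sat A l W0 with hW
  have hsub : W0 ⊆ W := by
    intro w hw
    rw [hW, mem_sat]
    exact ⟨w.1, rfl, hw⟩
  have hmem0 : ∀ w ∈ W0, lam ≤ ‖F A I N a w.1 w.2‖ := by
    intro w hw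
    rw [hW0] at hw
    unfold lev at hw
    exact (mem_filter.mp hw).2
  have hWF : ∀ w ∈ W, lam / 2 ≤ ‖F A I N a w.1 w.2‖ := by
    intro w hw
    rw [hW, mem_sat] at hw
    obtain ⟨z', hz', hzW⟩ := hw
    obtain ⟨j, hj, hjl⟩ := diff_block A hlpos hz'
    have h1 := hmem0 _ hzW
    have h2 := lip A I N hIc a ha (((N + 1 : ℕ) : ℝ) ^ 5) (by positivity) (by
      intro n hn m hm
      rw [hI, mem_Icc] at hn
      have h3 : n ≤ (N + 1) ^ 2 := by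
        rw [hsqN]
        omega
      have h4 : n ^ 2 + m ^ 2 ≤ (N + 1) ^ 5 := by
        have h5 : n ^ 2 ≤ ((N + 1) ^ 2) ^ 2 := Nat.pow_le_pow_left h3 2
        have h6 : m ^ 2 ≤ (N + 1) ^ 2 := Nat.pow_le_pow_left (by omega) 2
        have h7 : (N + 1) ^ 2 ≤ (N + 1) ^ 4 := Nat.pow_le_pow_right (by omega) (by norm_num)
        have h8 : 2 * (N + 1) ^ 4 ≤ (N + 1) * (N + 1) ^ 4 := Nat.mul_le_mul_right _ (by omega)
        have h9 : ((N + 1) ^ 2) ^ 2 = (N + 1) ^ 4 := by rw [← pow_mul]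
        rw [h9] at h5
        calc n ^ 2 + m ^ 2 ≤ (N + 1) ^ 4 + (N + 1) ^ 4 := by omega
          _ = 2 * (N + 1) ^ 4 := by ring
          _ ≤ (N + 1) * (N + 1) ^ 4 := h8
          _ = (N + 1) ^ 5 := by ring
      exact_mod_cast h4) z' w.1 w.2 j hj
    have h3 := osc_le N l A hN hlpos hl j hjl
    have h4 := h2.trans h3
    have h5 := norm_sub_norm_le (F A I N a z' w.2) (F A I N a w.1 w.2)
    have h6 : lam ≤ ‖F A I N a z' w.2‖ := h1
    linarith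
  -- the density
  set μ : ℝ := (W.card : ℝ) / A ^ 2 with hμ
  have hμ0 : 0 ≤ μ := by positivity
  refine ⟨μ, ?_, ?_⟩
  · rw [hμ]
    apply div_le_div_of_nonneg_right _ (by positivity)
    exact_mod_cast card_le_card hsub
  obtain ⟨f, hf, hEn⟩ := En_ge A N I a ha W (lam / 2) (by linarith) hWF
  -- sieve
  have hQA : ∀ q ∈ Q, q ∣ A := by
    intro q hq
    obtain ⟨hp, _, h2⟩ := hQ q hq
    apply hgood q hp.one_lt.le
    have h3 : (q : ℝ) ≤ N := by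
      have : (q : ℝ) ≤ 2 * Y := by exact_mod_cast h2
      linarith
    have h4 : q ≤ N := by exact_mod_cast h3
    calc q ≤ N + 1 := by omega
      _ = (N + 1) ^ 1 := (pow_one _).symm
      _ ≤ (N + 1) ^ 60 := Nat.pow_le_pow_right (by omega) (by norm_num)
  have hYN : N + 1 ≤ Y ^ 2 := by omega
  have hQ' : ∀ q ∈ Q, q.Prime ∧ Y ≤ q := fun q hq => ⟨(hQ q hq).1, (hQ q hq).2.1⟩
  have hS := hsieve A N hN I (by
    intro n hn
    rw [hI, mem_Icc] at hn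
    refine ⟨by omega, ?_⟩
    have h3 : n ^ 2 ≤ (b + N) ^ 2 := Nat.pow_le_pow_left hn.2 2
    omega) Q (by
    intro q hq
    refine ⟨(hQ q hq).1, ?_, hQA q hq⟩
    have := (hQ q hq).2.1
    omega) (card_pos.mp (by omega)) (by
    intro n hn
    rw [hI, mem_Icc] at hn
    have h3 : n ≤ (N + 1) ^ 2 := by
      rw [hsqN]
      omega
    have h4 := card_primes_dvd N 2 n hN Q Y hQ' hYN (by omega) h3
    omega) f
  have hQpos : (0 : ℝ) < Q.card := by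
    have : 0 < Q.card := by omega
    exact_mod_cast this
  have hA4 : 4 * N < A := by
    have h3 : (N + 1) ^ 3 ≤ (N + 1) ^ 60 := Nat.pow_le_pow_right (by omega) (by norm_num)
    have h4 : 4 * N < (N + 1) ^ 3 := by
      have h5 : 2 ^ 2 ≤ (N + 1) ^ 2 := Nat.pow_le_pow_left (by omega) 2
      have h6 : (N + 1) ^ 3 = (N + 1) ^ 2 * (N + 1) := pow_succ _ _
      have h7 : 2 ^ 2 * (N + 1) ≤ (N + 1) ^ 2 * (N + 1) := Nat.mul_le_mul_right _ h5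
      omega
    exact h4.trans_le (h3.trans hA60)
  have hdiag := diag_le A N hA4 W f hf
  have hoff : ∀ p ∈ Q.offDiag, ((p.1 : ℝ) * p.2)⁻¹ * ∑ a ∈ range p.1, ∑ a' ∈ range p.2,
      (A : ℝ)⁻¹ * ∑ z : ZMod A, (A : ℝ)⁻¹ ^ 2 * ∑ y : ZMod A, ∑ y' : ZMod A,
        ‖f z y‖ * ‖f (z + sh A p.1 p.2 a a') y'‖ * Th A N (p.1 * p.2) (y' - y) ≤
      8 * (Y : ℝ) ^ 2 * ∑ k ∈ univ.filter (fun k : ZMod A => p.1 ∣ k.val ∧ p.2 ∣ k.val),
        ‖ft A (fun z => (rho A W z : ℂ)) k‖ ^ 2 := by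
    intro p hp
    rw [mem_offDiag] at hp
    obtain ⟨hp1, hp2, _⟩ := hp
    obtain ⟨a1, a2, a3⟩ := hQ _ hp1
    obtain ⟨b1, b2, b3⟩ := hQ _ hp2
    have h3 : 2 * N ≤ p.1 * p.2 := hY1.trans (by rw [sq]; exact Nat.mul_le_mul a2 b2)
    refine (off_le A hbig N hN W f hf p.1 p.2 a1.pos b1.pos (hQA _ hp1) (hQA _ hp2) h3).trans ?_
    apply mul_le_mul_of_nonneg_right _ (sum_nonneg fun _ _ => sq_nonneg _)
    have h4 : (p.1 : ℝ) ≤ 2 * Y := by exact_mod_cast a3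
    have h5 : (p.2 : ℝ) ≤ 2 * Y := by exact_mod_cast b3
    have h6 : (p.1 : ℝ) * p.2 ≤ (2 * Y) * (2 * Y) :=
      mul_le_mul h4 h5 (Nat.cast_nonneg _) (by positivity)
    calc 2 * ((p.1 : ℝ) * p.2) ≤ 2 * ((2 * Y) * (2 * Y)) := mul_le_mul_of_nonneg_left h6 (by norm_num)
      _ = 8 * (Y : ℝ) ^ 2 := by ring
  -- density function
  have htv : tv A (fun z => (rho A W z : ℂ)) ≤ L := by
    apply tv_block A L l hlpos hl
    · intro z z' h
      congr 1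
      unfold rho
      congr 1
      refine sum_congr rfl fun y _ => ?_
      have h3 := sat_block A (W0 := W0) (y := y) h
      rw [hW]
      by_cases h4 : (z, y) ∈ sat A l W0
      · rw [if_pos h4, if_pos (h3.mp h4)]
      · rw [if_neg h4, if_neg (fun h5 => h4 (h3.mpr h5))]
    · intro z z'
      rw [← Complex.ofReal_sub, Complex.norm_real, Real.norm_eq_abs, abs_le]
      have h3 := rho_nonneg A W z
      have h4 := rho_nonneg A W z'
      have h5 := rho_le_one A W z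
      have h6 := rho_le_one A W z'
      constructor <;> linarith
  have hpair := pair_sum A hft N 40 hN Q Y hQ' hQA hYN (rho A W) L htv
  have hrho2 := rho2_le A I N a W lam G (by linarith) hWF hG
  -- assembly
  have hoffsum : 4 / (Q.card : ℝ) ^ 2 * ∑ p ∈ Q.offDiag, ((p.1 : ℝ) * p.2)⁻¹ *
      ∑ a ∈ range p.1, ∑ a' ∈ range p.2, (A : ℝ)⁻¹ * ∑ z : ZMod A, (A : ℝ)⁻¹ ^ 2 *
        ∑ y : ZMod A, ∑ y' : ZMod A, ‖f z y‖ * ‖f (z + sh A p.1 p.2 a a') y'‖ *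
          Th A N (p.1 * p.2) (y' - y) ≤
      4 / (Q.card : ℝ) ^ 2 * (8 * (Y : ℝ) ^ 2 * ((Q.card : ℝ) ^ 2 * μ ^ 2 +
        (2 * (40 : ℕ) : ℝ) ^ 2 * (16 * ((lam ^ 4)⁻¹ * G)) +
        (Q.card : ℝ) ^ 2 * ((L : ℝ) ^ 2 / (4 * (((N + 1 : ℕ) : ℝ) ^ 40 + 1))))) := by
    apply mul_le_mul_of_nonneg_left _ (by positivity)
    refine (sum_le_sum hoff).trans ?_
    rw [← mul_sum]
    apply mul_le_mul_of_nonneg_left _ (by positivity)
    refine hpair.trans ?_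
    rw [sum_rho]
    apply add_le_add _ le_rfl
    apply add_le_add le_rfl
    exact mul_le_mul_of_nonneg_left hrho2 (sq_nonneg _)
  have hdiag' : 4 / (Q.card : ℝ) * ∑ m ∈ Icc (-(2 * N : ℤ)) (2 * N),
      wt N m * ((A : ℝ)⁻¹ * ∑ z, ‖fm A f m z‖ ^ 2) ≤ 8 * μ / Q.card := by
    calc _ ≤ 4 / (Q.card : ℝ) * (2 * μ) := mul_le_mul_of_nonneg_left hdiag (by positivity)
      _ = _ := by ring
  have htiny := tiny_le N L hN hL Y lam (Nat.cast_nonneg _) hlam1 hlamN hY2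
  have hEn2 := hEn.trans (hS.trans (add_le_add hdiag' hoffsum))
  have hY22 : 256 * (Y : ℝ) ^ 2 ≤ lam ^ 2 := by
    have h3 : (16 * (Y : ℝ)) ^ 2 ≤ lam ^ 2 := pow_le_pow_left₀ (by positivity) hY2 2
    calc 256 * (Y : ℝ) ^ 2 = (16 * (Y : ℝ)) ^ 2 := by ring
      _ ≤ lam ^ 2 := h3
  apply algebra_end lam μ Q.card Y G L (((N + 1 : ℕ) : ℝ) ^ 40 + 1) hQpos (by positivity) _ hY22
    htiny
  refine hEn2.trans (le_of_eq ?_)
  norm_num

end Stz.Md
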