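import Pool.Agent.Helper65.Stz.Basic

/-!
# Tools for the middle levels
-/

set_option autoImplicit false

namespace Stz.Md

open Finset

open scoped ComplexConjugate

section

variable (A : ℕ) [NeZero A]

/-! ## Lipschitz bound -/

theorem ps_int_sub_one (j : ℤ) : ‖ps A (j : ZMod A) - 1‖ ≤ 2 * Real.pi * |(j : ℝ)| / A := by
  unfold ps
  rw [ZMod.stdAddChar_coe]
  have h : (2 * Real.pi * Complex.I * j / A : ℂ) =
      Complex.I * ((2 * Real.pi * j / A : ℝ) : ℂ) := by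
    push_cast
    ring
  rw [h]
  refine Real.norm_exp_I_mul_ofReal_sub_one_le.trans (le_of_eq ?_)
  rw [Real.norm_eq_abs, abs_div, abs_mul, abs_of_pos (by positivity : 0 < 2 * Real.pi),
    Nat.abs_cast]

theorem sum_norm_le (I : Finset ℕ) (N : ℕ) (hI : I.card ≤ N) (a : ℕ → ℕ → ℂ)
    (ha : nsq I N a ≤ 1) : ∑ n ∈ I, ∑ m ∈ range N, ‖a n m‖ ≤ N := by
  have h1 := sum_mul_sq_le_sq_mul_sq (I ×ˢ range N) (fun x => ‖a x.1 x.2‖) (fun _ => (1 : ℝ))
  simp only [mul_one, one_pow, sum_const, nsmul_eq_mul, card_product, card_range] at h1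
  have h2 : ∑ x ∈ I ×ˢ range N, ‖a x.1 x.2‖ ^ 2 = nsq I N a := sum_product _ _ _
  have h3 : ∑ x ∈ I ×ˢ range N, ‖a x.1 x.2‖ = ∑ n ∈ I, ∑ m ∈ range N, ‖a n m‖ :=
    sum_product _ _ _
  rw [h2, h3] at h1
  have h4 : nsq I N a * ((I.card * N : ℕ) : ℝ) ≤ (N : ℝ) ^ 2 := by
    have h5 : ((I.card * N : ℕ) : ℝ) ≤ (N : ℝ) ^ 2 := by
      push_cast
      rw [sq]
      apply mul_le_mul_of_nonneg_right _ (Nat.cast_nonneg _)
      exact_mod_cast hI
    calc nsq I N a * ((I.card * N : ℕ) : ℝ) ≤ 1 * (N : ℝ) ^ 2 :=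
          mul_le_mul ha h5 (Nat.cast_nonneg _) zero_le_one
      _ = _ := one_mul _
  exact (pow_le_pow_iff_left₀ (sum_nonneg fun _ _ => sum_nonneg fun _ _ => norm_nonneg _)
    (Nat.cast_nonneg _) (two_ne_zero)).mp (h1.trans h4)

theorem norm_F_le (I : Finset ℕ) (N : ℕ) (hI : I.card ≤ N) (a : ℕ → ℕ → ℂ)
    (ha : nsq I N a ≤ 1) (z y : ZMod A) : ‖F A I N a z y‖ ≤ N := by
  refine le_trans ?_ (sum_norm_le I N hI a ha)
  unfold F
  refine (norm_sum_le _ _).trans (sum_le_sum fun n _ => ?_)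
  refine (norm_sum_le _ _).trans (sum_le_sum fun m _ => ?_)
  rw [norm_mul, norm_ps, mul_one]

theorem lip (I : Finset ℕ) (N : ℕ) (hI : I.card ≤ N) (a : ℕ → ℕ → ℂ) (ha : nsq I N a ≤ 1)
    (R : ℝ) (hR0 : 0 ≤ R) (hR : ∀ n ∈ I, ∀ m < N, ((n ^ 2 + m ^ 2 : ℕ) : ℝ) ≤ R) (z z' y : ZMod A)
    (j : ℤ) (hj : z = z' + (j : ZMod A)) :
    ‖F A I N a z y - F A I N a z' y‖ ≤ N * (2 * Real.pi * (R * |(j : ℝ)|) / A) := by
  have h0 : (0 : ℝ) < A := Nat.cast_pos.mpr (Nat.pos_of_ne_zero (NeZero.ne A))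
  have hterm : ∀ n ∈ I, ∀ m ∈ range N,
      ‖a n m * ps A (((n ^ 2 + m ^ 2 : ℕ) : ZMod A) * z + (m : ZMod A) * y) -
        a n m * ps A (((n ^ 2 + m ^ 2 : ℕ) : ZMod A) * z' + (m : ZMod A) * y)‖ ≤
      ‖a n m‖ * (2 * Real.pi * (R * |(j : ℝ)|) / A) := by
    intro n hn m hm
    have h1 : ps A (((n ^ 2 + m ^ 2 : ℕ) : ZMod A) * z + (m : ZMod A) * y) =
        ps A (((n ^ 2 + m ^ 2 : ℕ) : ZMod A) * z' + (m : ZMod A) * y) *
          ps A (((((n ^ 2 + m ^ 2 : ℕ) : ℤ) * j : ℤ)) : ZMod A) := by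
      rw [← ps_add, hj]
      congr 1
      push_cast
      ring
    rw [h1, ← mul_sub, norm_mul, ← mul_sub_one, norm_mul, norm_ps, one_mul]
    apply mul_le_mul_of_nonneg_left _ (norm_nonneg _)
    refine (ps_int_sub_one A _).trans ?_
    rw [Int.cast_mul, abs_mul]
    have h2 : |(((n ^ 2 + m ^ 2 : ℕ) : ℤ) : ℝ)| ≤ R := by
      rw [Int.cast_natCast, Nat.abs_cast]
      exact hR n hn m (mem_range.mp hm)
    apply div_le_div_of_nonneg_right _ h0.le
    apply mul_le_mul_of_nonneg_left _ (by positivity)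
    exact mul_le_mul_of_nonneg_right h2 (abs_nonneg _)
  calc ‖F A I N a z y - F A I N a z' y‖
      ≤ ∑ n ∈ I, ∑ m ∈ range N, ‖a n m‖ * (2 * Real.pi * (R * |(j : ℝ)|) / A) := by
        unfold F
        rw [← sum_sub_distrib]
        refine (norm_sum_le _ _).trans (sum_le_sum fun n hn => ?_)
        rw [← sum_sub_distrib]
        exact (norm_sum_le _ _).trans (sum_le_sum fun m hm => hterm n hn m hm)
    _ = (∑ n ∈ I, ∑ m ∈ range N, ‖a n m‖) * (2 * Real.pi * (R * |(j : ℝ)|) / A) := by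
        rw [sum_mul]
        exact sum_congr rfl fun n _ => (sum_mul _ _ _).symm
    _ ≤ _ := by
        apply mul_le_mul_of_nonneg_right (sum_norm_le I N hI a ha)
        positivity

/-! ## Blocks -/

/-- saturation of a set with respect to the blocks of length `l` in the first variable -/
def sat (l : ℕ) (W0 : Finset (ZMod A × ZMod A)) : Finset (ZMod A × ZMod A) := by
  classical
  exact univ.filter fun w => ∃ z' : ZMod A, z'.val / l = w.1.val / l ∧ (z', w.2) ∈ W0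

theorem mem_sat {l : ℕ} {W0 : Finset (ZMod A × ZMod A)} {w : ZMod A × ZMod A} :
    w ∈ sat A l W0 ↔ ∃ z' : ZMod A, z'.val / l = w.1.val / l ∧ (z', w.2) ∈ W0 := by
  unfold sat
  rw [mem_filter]
  simp

theorem sat_block {l : ℕ} {W0 : Finset (ZMod A × ZMod A)} {z z' y : ZMod A}
    (h : z.val / l = z'.val / l) : (z, y) ∈ sat A l W0 ↔ (z', y) ∈ sat A l W0 := by
  rw [mem_sat, mem_sat]
  simp only [h]

/-- density of the fibre over `z` -/
noncomputable def rho (W : Finset (ZMod A × ZMod A)) (z : ZMod A) : ℝ :=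
  (A : ℝ)⁻¹ * ∑ y : ZMod A, if (z, y) ∈ W then 1 else 0

theorem rho_nonneg (W : Finset (ZMod A × ZMod A)) (z : ZMod A) : 0 ≤ rho A W z := by
  unfold rho
  apply mul_nonneg (by positivity)
  apply sum_nonneg
  intro y _
  split_ifs <;> norm_num

theorem rho_le_one (W : Finset (ZMod A × ZMod A)) (z : ZMod A) : rho A W z ≤ 1 := by
  have h0 : (0 : ℝ) < A := Nat.cast_pos.mpr (Nat.pos_of_ne_zero (NeZero.ne A))
  unfold rho
  have h1 : ∑ y : ZMod A, (if (z, y) ∈ W then (1 : ℝ) else 0) ≤ ∑ _y : ZMod A, (1 : ℝ) := by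
    apply sum_le_sum
    intro y _
    split_ifs <;> norm_num
  rw [sum_const, card_univ, ZMod.card, nsmul_eq_mul, mul_one] at h1
  calc (A : ℝ)⁻¹ * ∑ y : ZMod A, (if (z, y) ∈ W then (1 : ℝ) else 0) ≤ (A : ℝ)⁻¹ * A :=
        mul_le_mul_of_nonneg_left h1 (by positivity)
    _ = 1 := inv_mul_cancel₀ h0.ne'

theorem sum_rho (W : Finset (ZMod A × ZMod A)) :
    (A : ℝ)⁻¹ * ∑ z, rho A W z = (W.card : ℝ) / A ^ 2 := by
  unfold rho
  rw [← mul_sum, ← mul_assoc, ← sum_product', univ_product_univ]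
  have h1 : ∑ w : ZMod A × ZMod A, (if (w.1, w.2) ∈ W then (1 : ℝ) else 0) = W.card := by
    simp only [Prod.mk.eta]
    rw [sum_ite_mem, univ_inter, sum_const, nsmul_eq_mul, mul_one]
  rw [h1]
  field_simp

theorem count_bdry (L l : ℕ) (hl : 0 < l) (hA : A = L * l) :
    (univ.filter fun z : ZMod A => l ∣ z.val + 1).card ≤ L := by
  classical
  have h1 : (univ.filter fun z : ZMod A => l ∣ z.val + 1).card =
      ((univ.filter fun z : ZMod A => l ∣ z.val + 1).image ZMod.val).card :=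
    (card_image_of_injective _ (ZMod.val_injective A)).symm
  rw [h1]
  have h2 : (univ.filter fun z : ZMod A => l ∣ z.val + 1).image ZMod.val ⊆
      (range A).filter fun e => l ∣ e + 1 := by
    intro e he
    rw [mem_image] at he
    obtain ⟨z, hz, rfl⟩ := he
    rw [mem_filter] at hz ⊢
    exact ⟨mem_range.mpr (ZMod.val_lt z), hz.2⟩
  refine (card_le_card h2).trans ?_
  rw [Nat.card_multiples, hA, Nat.mul_div_cancel _ hl]

theorem tv_block (L l : ℕ) (hl : 0 < l) (hA : A = L * l) (f : ZMod A → ℂ)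
    (hf : ∀ z z' : ZMod A, z.val / l = z'.val / l → f z = f z') (h1 : ∀ z z', ‖f z - f z'‖ ≤ 1) :
    tv A f ≤ L := by
  classical
  unfold tv
  have h2 : ∀ z : ZMod A, ‖f (z + 1) - f z‖ ≤ if l ∣ z.val + 1 then 1 else 0 := by
    intro z
    by_cases h : l ∣ z.val + 1
    · rw [if_pos h]
      exact h1 _ _
    · rw [if_neg h]
      have h3 : z.val + 1 ≠ A := by
        intro h4
        apply h
        rw [h4, hA]
        exact dvd_mul_left l L
      have h4 : z.val + 1 < A := lt_of_le_of_ne (ZMod.val_lt z) h3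
      have h5 : (z + 1).val = z.val + 1 := by
        have h6 : z + 1 = ((z.val + 1 : ℕ) : ZMod A) := by
          rw [Nat.cast_add, ZMod.natCast_zmod_val, Nat.cast_one]
        rw [h6, ZMod.val_natCast, Nat.mod_eq_of_lt h4]
      have h7 : f (z + 1) = f z := by
        apply hf
        rw [h5]
        exact Nat.succ_div_of_not_dvd h
      rw [h7, sub_self, norm_zero]
  refine (sum_le_sum fun z _ => h2 z).trans ?_
  rw [← sum_filter, sum_const, nsmul_eq_mul, mul_one]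
  exact_mod_cast count_bdry A L l hl hA

/-- In a block the points differ by less than `l`. -/
theorem diff_block {l : ℕ} (hl : 0 < l) {z z' : ZMod A} (h : z.val / l = z'.val / l) :
    ∃ j : ℤ, z = z' + (j : ZMod A) ∧ |(j : ℝ)| ≤ l := by
  refine ⟨(z.val : ℤ) - z'.val, ?_, ?_⟩
  · push_cast
    rw [ZMod.natCast_zmod_val, ZMod.natCast_zmod_val]
    ring
  · have h1 := Nat.div_add_mod z.val l
    have h2 := Nat.div_add_mod z'.val l
    have h3 := Nat.mod_lt z.val hl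
    have h4 := Nat.mod_lt z'.val hl
    rw [h] at h1
    have h5 : |((z.val : ℤ) - z'.val)| ≤ l := by
      rw [abs_le]
      constructor <;> omega
    exact_mod_cast h5

/-! ## Correlations -/

theorem corr1 (g : ZMod A → ℂ) (s : ZMod A) :
    ∑ k, ((‖ft A g k‖ ^ 2 : ℝ) : ℂ) * ps A (k * s) = (A : ℂ)⁻¹ * ∑ z, g z * conj (g (z + s)) := by
  classical
  have hA : (A : ℂ) ≠ 0 := Nat.cast_ne_zero.mpr (NeZero.ne A)
  have h1 : ∀ k : ZMod A, ((‖ft A g k‖ ^ 2 : ℝ) : ℂ) * ps A (k * s) =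
      ∑ z, ∑ z', (A : ℂ)⁻¹ ^ 2 * (g z * conj (g z')) * ps A (k * (z - z' + s)) := by
    intro k
    rw [sq_norm_eq]
    unfold ft
    rw [map_mul, map_inv₀, Complex.conj_natCast, map_sum]
    have h2 : (A : ℂ)⁻¹ * ∑ z, g z * ps A (k * z) *
        ((A : ℂ)⁻¹ * ∑ z, conj (g z * ps A (k * z))) =
        (A : ℂ)⁻¹ * ∑ z, g z * ps A (k * z) *
        ((A : ℂ)⁻¹ * ∑ z, conj (g z * ps A (k * z))) := rfl
    calc (A : ℂ)⁻¹ * (∑ z, g z * ps A (k * z)) *
        ((A : ℂ)⁻¹ * ∑ z, conj (g z * ps A (k * z))) * ps A (k * s)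
        = (A : ℂ)⁻¹ ^ 2 * ((∑ z, g z * ps A (k * z)) * ∑ z, conj (g z * ps A (k * z))) *
          ps A (k * s) := by ring
      _ = ∑ z, ∑ z', (A : ℂ)⁻¹ ^ 2 * (g z * ps A (k * z) * conj (g z' * ps A (k * z'))) *
          ps A (k * s) := by
          rw [sum_mul_sum, mul_sum, sum_mul]
          refine sum_congr rfl fun z _ => ?_
          rw [mul_sum, sum_mul]
      _ = _ := by
          refine sum_congr rfl fun z _ => sum_congr rfl fun z' _ => ?_
          rw [map_mul]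
          have h3 : ps A (k * (z - z' + s)) = ps A (k * z) * conj (ps A (k * z')) * ps A (k * s) := by
            rw [ps_mul_conj, ← ps_add]
            congr 1
            ring
          rw [h3]
          ring
  simp only [h1]
  rw [sum_comm, mul_sum]
  refine sum_congr rfl fun z _ => ?_
  rw [sum_comm]
  rw [sum_eq_single (z + s)]
  · rw [← mul_sum, sum_ps, if_pos (by ring)]
    field_simp
  · intro z' _ hz'
    rw [← mul_sum, sum_ps, if_neg, mul_zero]
    intro h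
    apply hz'
    have : z' = z' + (z - z' + s) := by rw [h, add_zero]
    rw [this]
    ring
  · intro h
    exact absurd (mem_univ _) h

theorem geom (q : ℕ) (hq : 0 < q) (hqA : q ∣ A) (k : ZMod A) :
    ∑ a ∈ range q, ps A (k * ((a * (A / q) : ℕ) : ZMod A)) = if q ∣ k.val then (q : ℂ) else 0 := by
  have hA0 : 0 < A := Nat.pos_of_ne_zero (NeZero.ne A)
  have hpow : ∀ a : ℕ, ps A (k * ((a * (A / q) : ℕ) : ZMod A)) =
      (ps A (k * ((A / q : ℕ) : ZMod A))) ^ a := by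
    intro a
    unfold ps
    rw [← AddChar.map_nsmul_eq_pow]
    congr 1
    rw [nsmul_eq_mul]
    push_cast
    ring
  simp only [hpow]
  have hval : k * ((A / q : ℕ) : ZMod A) = ((k.val * (A / q) : ℕ) : ZMod A) := by
    rw [Nat.cast_mul, ZMod.natCast_zmod_val]
  have hAq : A / q * q = A := Nat.div_mul_cancel hqA
  by_cases h : q ∣ k.val
  · rw [if_pos h]
    have h1 : ps A (k * ((A / q : ℕ) : ZMod A)) = 1 := by
      obtain ⟨c, hc⟩ := h
      have h2 : ((k.val * (A / q) : ℕ) : ZMod A) = 0 := by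
        rw [ZMod.natCast_eq_zero_iff]
        refine ⟨c, ?_⟩
        rw [hc]
        calc q * c * (A / q) = (A / q * q) * c := by ring
          _ = A * c := by rw [hAq]
      rw [hval, h2, ps_zero]
    rw [h1]
    simp
  · rw [if_neg h]
    have h1 : ps A (k * ((A / q : ℕ) : ZMod A)) ≠ 1 := by
      intro h2
      apply h
      have h3 : ps A (k * ((A / q : ℕ) : ZMod A)) = ps A 0 := by rw [h2, ps_zero]
      have h4 := ZMod.injective_stdAddChar h3
      rw [hval, ZMod.natCast_eq_zero_iff] at h4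
      have h5 : A / q * q ∣ A / q * k.val := by
        rw [hAq, mul_comm (A / q)]
        exact h4
      exact Nat.dvd_of_mul_dvd_mul_left (Nat.div_pos (Nat.le_of_dvd hA0 hqA) hq) h5
    have h2 : (ps A (k * ((A / q : ℕ) : ZMod A))) ^ q = 1 := by
      rw [← hpow]
      have h3 : ((q * (A / q) : ℕ) : ZMod A) = 0 := by
        rw [mul_comm, hAq]
        exact ZMod.natCast_self A
      rw [h3, mul_zero, ps_zero]
    rw [geom_sum_eq h1, h2, sub_self, zero_div]

theorem corr (q q' : ℕ) (hq : 0 < q) (hq' : 0 < q') (hqA : q ∣ A) (hqA' : q' ∣ A)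
    (r : ZMod A → ℝ) :
    ((q : ℝ) * q')⁻¹ * ∑ a ∈ range q, ∑ a' ∈ range q', (A : ℝ)⁻¹ *
      ∑ z, r z * r (z + sh A q q' a a') =
    ∑ k ∈ univ.filter (fun k : ZMod A => q ∣ k.val ∧ q' ∣ k.val),
      ‖ft A (fun z => (r z : ℂ)) k‖ ^ 2 := by
  have h1 : ∀ s : ZMod A, (((A : ℝ)⁻¹ * ∑ z, r z * r (z + s) : ℝ) : ℂ) =
      ∑ k, ((‖ft A (fun z => (r z : ℂ)) k‖ ^ 2 : ℝ) : ℂ) * ps A (k * s) := by
    intro s
    rw [corr1]
    push_cast
    simp only [Complex.conj_ofReal]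
  have h2 : (((((q : ℝ) * q')⁻¹ * ∑ a ∈ range q, ∑ a' ∈ range q', (A : ℝ)⁻¹ *
      ∑ z, r z * r (z + sh A q q' a a') : ℝ)) : ℂ) =
      ((∑ k ∈ univ.filter (fun k : ZMod A => q ∣ k.val ∧ q' ∣ k.val),
      ‖ft A (fun z => (r z : ℂ)) k‖ ^ 2 : ℝ) : ℂ) := by
    rw [Complex.ofReal_mul, Complex.ofReal_sum]
    simp only [Complex.ofReal_sum, h1]
    have h3 : ∑ a ∈ range q, ∑ a' ∈ range q', ∑ k : ZMod A,
        ((‖ft A (fun z => (r z : ℂ)) k‖ ^ 2 : ℝ) : ℂ) * ps A (k * sh A q q' a a') =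
        ∑ k : ZMod A, ((‖ft A (fun z => (r z : ℂ)) k‖ ^ 2 : ℝ) : ℂ) *
          ((if q ∣ k.val then (q : ℂ) else 0) * (if q' ∣ k.val then (q' : ℂ) else 0)) := by
      rw [comm3]
      refine sum_congr rfl fun k _ => ?_
      rw [← geom A q hq hqA k, ← geom A q' hq' hqA' k, sum_mul_sum, mul_sum]
      refine sum_congr rfl fun a _ => ?_
      rw [mul_sum]
      refine sum_congr rfl fun a' _ => ?_
      rw [← ps_add]
      congr 2
      unfold sh
      push_cast
      ring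
    rw [h3, mul_sum, sum_filter]
    refine sum_congr rfl fun k _ => ?_
    have hqc : (q : ℂ) ≠ 0 := Nat.cast_ne_zero.mpr hq.ne'
    have hqc' : (q' : ℂ) ≠ 0 := Nat.cast_ne_zero.mpr hq'.ne'
    by_cases h4 : q ∣ k.val <;> by_cases h5 : q' ∣ k.val
    · simp only [h4, h5, if_true, and_self]
      push_cast
      field_simp
    · simp [h4, h5]
    · simp [h4, h5]
    · simp [h4, h5]
  exact_mod_cast h2

/-! ## Tails -/

theorem tail (hft : ∀ (f : ZMod A → ℂ) (k : ZMod A), k ≠ 0 →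
      ‖ft A f k‖ ≤ tv A f / (4 * |(k.valMinAbs : ℝ)|)) (f : ZMod A → ℂ) (V : ℝ)
    (hV : tv A f ≤ V) (K : ℕ) :
    ∑ k ∈ univ.filter (fun k : ZMod A => K < k.valMinAbs.natAbs), ‖ft A f k‖ ^ 2 ≤
      V ^ 2 / (4 * (K + 1)) := by
  classical
  have hV0 : 0 ≤ V := le_trans (sum_nonneg fun _ _ => norm_nonneg _) hV
  have h1 : ∀ k ∈ univ.filter (fun k : ZMod A => K < k.valMinAbs.natAbs),
      ‖ft A f k‖ ^ 2 ≤ V ^ 2 / 16 * ((k.valMinAbs.natAbs : ℝ) ^ 2)⁻¹ := by
    intro k hk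
    rw [mem_filter] at hk
    have hk0 : k ≠ 0 := by
      rintro rfl
      simp at hk
    have hpos : (0 : ℝ) < k.valMinAbs.natAbs := by
      exact_mod_cast (Nat.zero_le K).trans_lt hk.2
    have habs : |(k.valMinAbs : ℝ)| = k.valMinAbs.natAbs := by
      rw [← Int.cast_abs, Int.abs_eq_natAbs, Int.cast_natCast]
    have h2 := hft f k hk0
    rw [habs] at h2
    have h3 : ‖ft A f k‖ ≤ V / (4 * (k.valMinAbs.natAbs : ℝ)) :=
      h2.trans (div_le_div_of_nonneg_right hV (by positivity))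
    calc ‖ft A f k‖ ^ 2 ≤ (V / (4 * (k.valMinAbs.natAbs : ℝ))) ^ 2 :=
          pow_le_pow_left₀ (norm_nonneg _) h3 2
      _ = _ := by
          field_simp
          ring
  refine (sum_le_sum h1).trans ?_
  rw [← mul_sum]
  have h2 : ∑ k ∈ univ.filter (fun k : ZMod A => K < k.valMinAbs.natAbs),
      ((k.valMinAbs.natAbs : ℝ) ^ 2)⁻¹ ≤ 4 / (K + 1) := by
    have hmaps : ∀ k ∈ univ.filter (fun k : ZMod A => K < k.valMinAbs.natAbs),
        k.valMinAbs.natAbs ∈ Ioo K (A + 1) := by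
      intro k hk
      rw [mem_filter] at hk
      rw [mem_Ioo]
      have := ZMod.natAbs_valMinAbs_le k
      omega
    rw [← sum_fiberwise_of_maps_to hmaps]
    have h3 : ∀ j ∈ Ioo K (A + 1),
        ∑ k ∈ (univ.filter (fun k : ZMod A => K < k.valMinAbs.natAbs)).filter
          (fun k => k.valMinAbs.natAbs = j), ((k.valMinAbs.natAbs : ℝ) ^ 2)⁻¹ ≤
        2 * ((j : ℝ) ^ 2)⁻¹ := by
      intro j _
      have h4 : ∑ k ∈ (univ.filter (fun k : ZMod A => K < k.valMinAbs.natAbs)).filter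
          (fun k => k.valMinAbs.natAbs = j), ((k.valMinAbs.natAbs : ℝ) ^ 2)⁻¹ =
          (((univ.filter (fun k : ZMod A => K < k.valMinAbs.natAbs)).filter
          (fun k => k.valMinAbs.natAbs = j)).card : ℝ) * ((j : ℝ) ^ 2)⁻¹ := by
        rw [← nsmul_eq_mul, ← sum_const]
        refine sum_congr rfl fun k hk => ?_
        rw [(mem_filter.mp hk).2]
      rw [h4]
      apply mul_le_mul_of_nonneg_right _ (by positivity)
      have h5 : ((univ.filter (fun k : ZMod A => K < k.valMinAbs.natAbs)).filter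
          (fun k => k.valMinAbs.natAbs = j)) ⊆ {(j : ZMod A), -(j : ZMod A)} := by
        intro k hk
        have h6 := (mem_filter.mp hk).2
        rw [mem_insert, mem_singleton]
        have h7 := ZMod.coe_valMinAbs k
        rcases Int.natAbs_eq k.valMinAbs with h8 | h8
        · left
          rw [← h7, h8, h6, Int.cast_natCast]
        · right
          rw [← h7, h8, h6, Int.cast_neg, Int.cast_natCast]
      have h6 := (card_le_card h5).trans card_le_two
      exact_mod_cast h6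
    refine (sum_le_sum h3).trans ?_
    rw [← mul_sum]
    have h4 := sum_Ioo_inv_sq_le (α := ℝ) K (A + 1)
    calc 2 * ∑ i ∈ Ioo K (A + 1), ((i : ℝ) ^ 2)⁻¹ ≤ 2 * (2 / (K + 1)) :=
          mul_le_mul_of_nonneg_left h4 (by norm_num)
      _ = 4 / (K + 1) := by ring
  calc V ^ 2 / 16 * _ ≤ V ^ 2 / 16 * (4 / (K + 1)) := mul_le_mul_of_nonneg_left h2 (by positivity)
    _ = V ^ 2 / (4 * (K + 1)) := by
        field_simp
        norm_num

/-! ## Prime divisors -/

theorem card_primes_dvd (N M j : ℕ) (hN : 1 ≤ N) (Q : Finset ℕ) (Y : ℕ)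
    (hQ : ∀ q ∈ Q, q.Prime ∧ Y ≤ q) (hY : N + 1 ≤ Y ^ 2) (hj : 0 < j) (hjM : j ≤ (N + 1) ^ M) :
    (Q.filter fun q => q ∣ j).card ≤ 2 * M := by
  set S := Q.filter fun q => q ∣ j with hS
  have h1 : ∏ q ∈ S, q ∣ j := by
    apply Finset.prod_primes_dvd
    · intro q hq
      rw [hS, mem_filter] at hq
      exact (hQ q hq.1).1.prime
    · intro q hq
      rw [hS, mem_filter] at hq
      exact hq.2
  have h2 : Y ^ S.card ≤ ∏ q ∈ S, q := by
    rw [← prod_const]
    apply prod_le_prod'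
    intro q hq
    rw [hS, mem_filter] at hq
    exact (hQ q hq.1).2
  have h3 : Y ^ S.card ≤ (N + 1) ^ M := (h2.trans (Nat.le_of_dvd hj h1)).trans hjM
  have h4 : (N + 1) ^ S.card ≤ (N + 1) ^ (2 * M) := by
    calc (N + 1) ^ S.card ≤ (Y ^ 2) ^ S.card := Nat.pow_le_pow_left hY _
      _ = (Y ^ S.card) ^ 2 := by rw [← pow_mul, ← pow_mul, mul_comm]
      _ ≤ ((N + 1) ^ M) ^ 2 := Nat.pow_le_pow_left h3 2
      _ = (N + 1) ^ (2 * M) := by rw [← pow_mul, mul_comm]
  exact (Nat.pow_le_pow_iff_right (by omega)).mp h4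

end

end Stz.Md
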